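import Pool.Agent.H93.CUBE.LDefs

/-!
# Cube project (MP_47888e_al), block LIMIT: statements of the modules (table `lim`)

Blueprint: /team-store/CUBE91.md, part B (helper91).
-/

set_option autoImplicit false

open Polynomial Pool.CM

namespace Pool.H93.Cube

/-! ### one place: horizontal pairs, binomials, nilpotency -/

/-- swap lemma -/
def SWStmt : Prop := ∀ (E : Type) [Field E] (O : Subring E) (p : ℕ), Dvr O p →
  ∀ (m : Type) [Fintype m] [DecidableEq m] (n M : ℕ) (X Y : Matrix m m E),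
  (∀ a b, X a b ∈ O) → (∀ a b, Y a b ∈ O) → n < M → Cong O p M (X * Y) ((p : E) ^ n • 1) →
  Cong O p (M - n) (Y * X) ((p : E) ^ n • 1)

/-- LEMMA BIN: horizontal pairs give integral binomials -/
def BINStmt : Prop := ∀ (E : Type) [Field E] (O : Subring E) (p : ℕ) (h : Dvr O p)
  (φ : E →+* E), (∀ x ∈ O, φ x ∈ O) → ∀ (m : Type) [Fintype m] [DecidableEq m] (M n C1 : ℕ)
  (G Phi Psi : Matrix m m (LaurentSeries E)), MInt O G →
  HP O p h.prime.ne_zero φ M n G Phi Psi → C1 < p → C1 ≤ M → BinOK O p n G (p * C1)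

/-- LEMMA NIL -/
def NILStmt : Prop := ∀ (E : Type) [Field E] (O : Subring E) (p : ℕ), Dvr O p →
  ∀ (m : Type) [Fintype m] (n : ℕ) (G : Matrix m m (LaurentSeries E)), MInt O G → n + 1 < p →
  BinOK O p n G (p * (n + 1)) →
  ∀ v, VInt O v → ∀ a, (((op G) ^ p - op G) ^ (n + 1)) v a ∈ pL O p 1

/-! ### expansions of vectors over `E(x)` -/

/-- expansion commutes with `∇ + G` -/
def EXOStmt : Prop := ∀ (E : Type) [Field E] (m : Type) [Fintype m]
  (G : Matrix m m (RatFunc E)) (v : m → RatFunc E),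
  (∀ (k : ℕ) (a : m), ex E (((opF (nabF E) G) ^ k) v a) =
    ((op (G.map (ex E))) ^ k) (fun b => ex E (v b)) a) ∧
  ∀ (p n : ℕ) (a : m), ex E ((((opF (nabF E) G) ^ p - opF (nabF E) G) ^ n) v a) =
    (((op (G.map (ex E))) ^ p - op (G.map (ex E))) ^ n) (fun b => ex E (v b)) a

/-- gauge transforms over `E(x)` and over Laurent series -/
def EXGStmt : Prop := ∀ (E : Type) [Field E] (m m' : Type) [Fintype m] [Fintype m']
  (H : Matrix m m' (RatFunc E)) (H' : Matrix m' m (RatFunc E)) (G : Matrix m m (RatFunc E)),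
  (gau (nabF E) H H' G).map (ex E) = H'.map (ex E) * (H.map (ex E)).map nab +
    H'.map (ex E) * G.map (ex E) * H.map (ex E)

/-- Frobenius and expansion -/
def EXFStmt : Prop := ∀ (X : Idx) (E : Type) [Field E] (A : PF X E) (i : X.I) (x : RatFunc E),
  ex E (A.ext.phi i x) = phiL (A.phi i) (X.p i) (X.hp i).ne_zero (ex E x)

/-- fixed matrices over `E(x)` have integral expansions -/
def EXIStmt : Prop := ∀ (X : Idx) (E : Type) [Field E] (A : PF X E), A.Ax →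
  ∀ x : RatFunc E, X.Ev fun i => ex E x ∈ IL (A.O i)

/-- horizontal pairs and gauge transforms -/
def GHPStmt : Prop := ∀ (X : Idx) (E : Type) [Field E] (A : PF X E), A.Ax →
  ∀ (m m' : Type) [Fintype m] [DecidableEq m] [Fintype m'] [DecidableEq m']
  (G : Matrix m m (RatFunc E)) (H : Matrix m m' (RatFunc E)) (H' : Matrix m' m (RatFunc E)),
  Inv2 H H' → ∀ n, hasHP A (G.map (ex E)) n → hasHP A ((gau (nabF E) H H' G).map (ex E)) n

/-- horizontal pairs imply nilpotency -/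
def HNFStmt : Prop := ∀ (X : Idx) (E : Type) [Field E] (A : PF X E), A.Ax →
  ∀ (m : Type) [Fintype m] [DecidableEq m] (G : Matrix m m (RatFunc E)) (n : ℕ),
  hasHP A (G.map (ex E)) n → NilF A G n

/-! ### REG -/

/-- regularity (Katz) -/
def REGStmt : Prop := ∀ (X : Idx) (E : Type) [Field E] (A : PF X E), A.Ax →
  ∀ (m : Type) [Fintype m] [DecidableEq m] (G : Matrix m m (RatFunc E)) (n : ℕ), NilF A G n →
  ∃ (m' : Type) (_ : Fintype m') (_ : DecidableEq m') (H : Matrix m m' (RatFunc E))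
    (H' : Matrix m' m (RatFunc E)), Inv2 H H' ∧ MReg ((gau (nabF E) H H' G).map (ex E))

/-! ### SHEAR -/

/-- regular connections have a normal form -/
def SHEStmt : Prop := ∀ (E : Type) [Field E] [CharZero E] (m : Type) [Fintype m] [DecidableEq m]
  (G : Matrix m m (RatFunc E)), MReg (G.map (ex E)) →
  ∃ (u w : Type) (_ : Fintype u) (_ : DecidableEq u) (_ : Fintype w) (_ : DecidableEq w)
    (H : Matrix m (u ⊕ w) (RatFunc E)) (H' : Matrix (u ⊕ w) m (RatFunc E)) (Bu : Matrix u u E)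
    (Bn : Matrix w w E), Inv2 H H' ∧ NF ((gau (nabF E) H H' G).map (ex E)) Bu Bn

/-- existence of a normal form (REG + SHEAR) -/
def NFXStmt : Prop := ∀ (X : Idx) (E : Type) [Field E] (A : PF X E), A.Ax →
  ∀ (m : Type) [Fintype m] [DecidableEq m] (G : Matrix m m (RatFunc E)) (n : ℕ), NilF A G n →
  ∃ (u w : Type) (_ : Fintype u) (_ : DecidableEq u) (_ : Fintype w) (_ : DecidableEq w)
    (H : Matrix m (u ⊕ w) (RatFunc E)) (H' : Matrix (u ⊕ w) m (RatFunc E)) (Bu : Matrix u u E)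
    (Bn : Matrix w w E), Inv2 H H' ∧ NF ((gau (nabF E) H H' G).map (ex E)) Bu Bn

/-! ### FLAT -/

/-- generalised horizontal vectors in normal form -/
def FLAStmt : Prop := ∀ (K : Type) [Field K] [CharZero K] (u w : Type) [Fintype u]
  [DecidableEq u] [Fintype w] [DecidableEq w] (G : Matrix (u ⊕ w) (u ⊕ w) (LaurentSeries K))
  (Bu : Matrix u u K) (Bn : Matrix w w K), NF G Bu Bn →
  ∀ (q : ℕ) (v : u ⊕ w → LaurentSeries K), ((op G) ^ q) v = 0 →
  (∀ a, v a ∈ Rg K) ∧ (∀ b, (v (Sum.inr b)).coeff 0 = 0) ∧ ((∀ a, (v a).coeff 0 = 0) → v = 0)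

/-- existence of the flat basis in normal form -/
def FLBStmt : Prop := ∀ (K : Type) [Field K] [CharZero K] (u w : Type) [Fintype u]
  [DecidableEq u] [Fintype w] [DecidableEq w] (G : Matrix (u ⊕ w) (u ⊕ w) (LaurentSeries K))
  (Bu : Matrix u u K) (Bn : Matrix w w K), NF G Bu Bn →
  ∃ Y : Matrix (u ⊕ w) u (LaurentSeries K), MReg Y ∧ cz Y = Matrix.fromRows 1 0 ∧
    Y.map nab + G * Y = Y * cM Bu

/-- duality of the flat bases -/
def FLCStmt : Prop := ∀ (K : Type) [Field K] [CharZero K] (u w : Type) [Fintype u]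
  [DecidableEq u] [Fintype w] [DecidableEq w] (G : Matrix (u ⊕ w) (u ⊕ w) (LaurentSeries K))
  (Bu : Matrix u u K) (Bn : Matrix w w K), NF G Bu Bn →
  ∀ Y Y' : Matrix (u ⊕ w) u (LaurentSeries K), MReg Y → cz Y = Matrix.fromRows 1 0 →
  Y.map nab + G * Y = Y * cM Bu → MReg Y' → cz Y' = Matrix.fromRows 1 0 →
  Y'.map nab - G.transpose * Y' = -(Y' * cM Bu.transpose) → Y'.transpose * Y = 1

/-- existence of limit data for one matrix -/
def LD0XStmt : Prop := ∀ (X : Idx) (E : Type) [Field E] (A : PF X E), A.Ax →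
  ∀ (m : Type) [Fintype m] [DecidableEq m] (G : Matrix m m (RatFunc E)) (n : ℕ), NilF A G n →
  ∃ (u : Type) (_ : Fintype u) (_ : DecidableEq u), Nonempty (LD0 G u)

/-- a normal form adapted to given limit data -/
def NFLStmt : Prop := ∀ (X : Idx) (E : Type) [Field E] (A : PF X E), A.Ax →
  ∀ (m : Type) [Fintype m] [DecidableEq m] (G : Matrix m m (RatFunc E)) (n : ℕ), NilF A G n →
  ∀ (u : Type) [Fintype u] [DecidableEq u] (d : LD0 G u),
  ∃ (w : Type) (_ : Fintype w) (_ : DecidableEq w)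
    (H : Matrix m (u ⊕ w) (RatFunc E)) (H' : Matrix (u ⊕ w) m (RatFunc E)) (Bn : Matrix w w E),
    Inv2 H H' ∧ NF ((gau (nabF E) H H' G).map (ex E)) d.N Bn ∧
    MReg (H'.map (ex E) * d.Z) ∧ cz (H'.map (ex E) * d.Z) = Matrix.fromRows 1 0 ∧
    MReg ((H.map (ex E)).transpose * d.Z') ∧
    cz ((H.map (ex E)).transpose * d.Z') = Matrix.fromRows 1 0

/-- the induced connection in the other directions -/
def LDDStmt : Prop := ∀ (X : Idx) (E : Type) [Field E] (A : PF X E), A.Ax →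
  ∀ (m : Type) [Fintype m] [DecidableEq m] (G : Option A.J → Matrix m m (RatFunc E)),
  (∀ a b : Option A.J, (G b).map (A.ext.D a) + G a * G b = (G a).map (A.ext.D b) + G b * G a) →
  ∀ (u : Type) [Fintype u] [DecidableEq u] (d : LD0 (G none) u),
  ∃ G' : A.J → Matrix u u E,
    (∀ a, d.Z.map (cmap (A.D a : E →+ E)) + (G (some a)).map (ex E) * d.Z = d.Z * cM (G' a)) ∧
    ∀ a, d.Z'.map (cmap (A.D a : E →+ E)) - ((G (some a)).map (ex E)).transpose * d.Z' =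
      -(d.Z' * cM (G' a).transpose)

/-- the special vector -/
def LDBStmt : Prop := ∀ (E : Type) [Field E] (m : Type) [Fintype m] [DecidableEq m]
  (G : Matrix m m (RatFunc E)) (e : m), (∀ x, G x e = 0) → ∀ (u : Type) [Fintype u]
  [DecidableEq u], LD0 G u →
  ∃ (e' : u) (d : LD0 G u), ∀ x, d.Z x e' = if x = e then 1 else 0

/-! ### LEMMA R -/

/-- local form of LEMMA R -/
def RLOStmt : Prop := ∀ (E : Type) [Field E] (O : Subring E) (p : ℕ), Dvr O p →
  ∀ (m : Type) [Fintype m] [DecidableEq m] (n c1 C : ℕ) (G : Matrix m m (LaurentSeries E)),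
  MReg G → MInt O G →
  C < p → Fintype.card m * Fintype.card m * C + 1 < p →
  BinOK O p n G (p * (Fintype.card m * Fintype.card m * C)) →
  (∀ i : ℕ, 1 ≤ i → i ≤ p * C → (cz G).charpoly.eval (i : E) ≠ 0 ∧
    (p : E) ^ c1 * ((cz G).charpoly.eval (i : E))⁻¹ ∈ O) →
  ROK O p G (Fintype.card m)
    (Fintype.card m * (Fintype.card m * Fintype.card m * c1 + 1) + n) (p * C)

/-- global form of LEMMA R -/
def RGLStmt : Prop := ∀ (X : Idx) (E : Type) [Field E] (A : PF X E), A.Ax →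
  ∀ (m : Type) [Fintype m] [DecidableEq m] (G : Matrix m m (LaurentSeries E)) (n : ℕ), MReg G →
  (∀ i : ℕ, 1 ≤ i → (cz G).charpoly.eval (i : E) ≠ 0) → hasHP A G n →
  ∃ c : ℕ, ∀ C : ℕ, X.Ev fun i => ROK (A.O i) (X.p i) G (Fintype.card m) c (X.p i * C)

/-! ### the limit of Frobenius -/

/-- one place, normal form: `Φ φ(Y) ≡ Y Φ₀` where `Φ₀` is the upper block of the constant term -/
def TR1Stmt : Prop := ∀ (E : Type) [Field E] (O : Subring E) (p : ℕ) (h : Dvr O p)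
  (φ : E →+* E), (∀ x ∈ O, φ x ∈ O) → ∀ (u w : Type) [Fintype u] [DecidableEq u] [Fintype w]
  [DecidableEq w] (G : Matrix (u ⊕ w) (u ⊕ w) (LaurentSeries E)) (Bu : Matrix u u E)
  (Bn : Matrix w w E), NF G Bu Bn → MInt O G → (Bn.det)⁻¹ ∈ O → ∀ K : ℕ, 0 < K →
  (∀ k : ℕ, 0 < k → k < K → ((cz G + (k : E) • (1 : Matrix (u ⊕ w) (u ⊕ w) E)).det)⁻¹ ∈ O) →
  ∀ Y : Matrix (u ⊕ w) u (LaurentSeries E), MReg Y → MInt O Y → cz Y = Matrix.fromRows 1 0 →
  (∀ a b, ∀ k < (K : ℤ), ((Y.map nab + G * Y - Y * cM Bu) a b).coeff k = 0) →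
  ∀ (Phi : Matrix (u ⊕ w) (u ⊕ w) (LaurentSeries E)) (M c C1 : ℕ), MInt O Phi →
  (∀ a b, ∀ k < -((p * C1 : ℕ) : ℤ), (Phi a b).coeff k = 0) → K + p * C1 ≤ p * K →
  CongL O p (M + c) (Phi.map nab + G * Phi)
    ((HahnSeries.C (p : E) : LaurentSeries E) • (Phi * G.map (phiL φ p h.prime.ne_zero))) →
  ROK O p G (Fintype.card (u ⊕ w)) c (p * C1) →
  CongT O p M K (Phi * Y.map (phiL φ p h.prime.ne_zero))
    (Y * cM (Matrix.of fun a b =>
      ((Phi * Y.map (phiL φ p h.prime.ne_zero)) (Sum.inl a) b).coeff 0))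

/-- normal form, global: the limit of one Frobenius matrix exists -/
def TRNStmt : Prop := ∀ (X : Idx) (E : Type) [Field E] (A : PF X E), A.Ax →
  ∀ (u w : Type) [Fintype u] [DecidableEq u] [Fintype w]
  [DecidableEq w] (G : Matrix (u ⊕ w) (u ⊕ w) (RatFunc E)) (Bu : Matrix u u E)
  (Bn : Matrix w w E), NF (G.map (ex E)) Bu Bn → ∀ n, hasHP A (G.map (ex E)) n →
  ∀ Y : Matrix (u ⊕ w) u (LaurentSeries E), MReg Y → cz Y = Matrix.fromRows 1 0 →
  Y.map nab + G.map (ex E) * Y = Y * cM Bu →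
  ∃ c : ℕ, ∀ M C1 I : ℕ, ∃ C2 : ℕ, X.Ev fun i =>
    ∀ Phi : Matrix (u ⊕ w) (u ⊕ w) (RatFunc E), (∀ a b, Phi a b ∈ A.ext.t i (C1 * X.p i)) →
    Cong (A.ext.O i) (X.p i) (M + c) (Phi.map (nabF E) + G * Phi)
      ((X.p i : RatFunc E) • (Phi * G.map (A.ext.phi i))) →
    ∃ PhiH : Matrix u u E, (∀ a b, PhiH a b ∈ A.t i (C2 * X.p i)) ∧
      CongT (A.O i) (X.p i) M I
        (Phi.map (ex E) * Y.map (phiL (A.phi i) (X.p i) (X.hp i).ne_zero)) (Y * cM PhiH)

/-- the limit of one Frobenius matrix exists, for arbitrary limit data -/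
def TR2Stmt : Prop := ∀ (X : Idx) (E : Type) [Field E] (A : PF X E), A.Ax →
  ∀ (m : Type) [Fintype m] [DecidableEq m] (G : Matrix m m (RatFunc E)) (n : ℕ),
  hasHP A (G.map (ex E)) n → ∀ (u : Type) [Fintype u] [DecidableEq u] (d : LD0 G u),
  ∃ c : ℕ, ∀ M C1 I : ℕ, ∃ C2 : ℕ, X.Ev fun i =>
    ∀ Phi : Matrix m m (RatFunc E), (∀ a b, Phi a b ∈ A.ext.t i (C1 * X.p i)) →
    Cong (A.ext.O i) (X.p i) (M + c) (Phi.map (nabF E) + G * Phi)
      ((X.p i : RatFunc E) • (Phi * G.map (A.ext.phi i))) →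
    ∃ PhiH : Matrix u u E, (∀ a b, PhiH a b ∈ A.t i (C2 * X.p i)) ∧
      CongT (A.O i) (X.p i) M I
        (Phi.map (ex E) * d.Z.map (phiL (A.phi i) (X.p i) (X.hp i).ne_zero)) (d.Z * cM PhiH)

/-- cancellation of `Z` -/
def CANStmt : Prop := ∀ (X : Idx) (E : Type) [Field E] (A : PF X E), A.Ax →
  ∀ (m : Type) [Fintype m] [DecidableEq m] (G : Matrix m m (RatFunc E))
  (u : Type) [Fintype u] [DecidableEq u] (d : LD0 G u),
  ∃ I : ℕ, X.Ev fun i => ∀ (M : ℕ) (u' : Type) (Y : Matrix u u' E),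
    (∀ a b, ∀ k < (I : ℤ), ((d.Z * cM Y) a b).coeff k ∈ pI (A.O i) (X.p i) M) →
    ∀ a b, Y a b ∈ pI (A.O i) (X.p i) M

/-- the relation `Φ'ᵀ Φ = p ^ n` passes to the limit -/
def TRMStmt : Prop := ∀ (X : Idx) (E : Type) [Field E] (A : PF X E), A.Ax →
  ∀ (m : Type) [Fintype m] [DecidableEq m] (G : Matrix m m (RatFunc E))
  (u : Type) [Fintype u] [DecidableEq u] (d : LD0 G u),
  ∃ I : ℕ, ∀ n M C1 : ℕ, X.Ev fun i => ∀ Phi Phi' : Matrix m m (RatFunc E),
    (∀ a b, Phi a b ∈ A.ext.t i (C1 * X.p i)) → (∀ a b, Phi' a b ∈ A.ext.t i (C1 * X.p i)) →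
    Cong (A.ext.O i) (X.p i) M (Phi'.transpose * Phi) ((X.p i : RatFunc E) ^ n • 1) →
    ∀ PhiH PhiH' : Matrix u u E, (∀ a b, PhiH a b ∈ A.O i) → (∀ a b, PhiH' a b ∈ A.O i) →
    CongT (A.O i) (X.p i) M I
      (Phi.map (ex E) * d.Z.map (phiL (A.phi i) (X.p i) (X.hp i).ne_zero)) (d.Z * cM PhiH) →
    CongT (A.O i) (X.p i) M I
      (Phi'.map (ex E) * d.Z'.map (phiL (A.phi i) (X.p i) (X.hp i).ne_zero))
      (d.Z' * cM PhiH') →
    Cong (A.O i) (X.p i) M (PhiH'.transpose * PhiH) ((X.p i : E) ^ n • 1)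

/-- horizontality in the direction `a` passes to the limit -/
def TRHStmt : Prop := ∀ (X : Idx) (E : Type) [Field E] (A : PF X E), A.Ax →
  ∀ (m : Type) [Fintype m] [DecidableEq m] (G Ga : Matrix m m (RatFunc E))
  (u : Type) [Fintype u] [DecidableEq u] (d : LD0 G u) (a : A.J) (Ga' : Matrix u u E),
  d.Z.map (cmap (A.D a : E →+ E)) + Ga.map (ex E) * d.Z = d.Z * cM Ga' →
  ∃ I : ℕ, ∀ M C1 : ℕ, X.Ev fun i => ∀ Phi : Matrix m m (RatFunc E),
    (∀ a b, Phi a b ∈ A.ext.t i (C1 * X.p i)) →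
    Cong (A.ext.O i) (X.p i) M (Phi.map (A.ext.D (some a)) + Ga * Phi)
      ((X.p i : RatFunc E) • (Phi * Ga.map (A.ext.phi i))) →
    ∀ PhiH : Matrix u u E, (∀ a b, PhiH a b ∈ A.O i) →
    CongT (A.O i) (X.p i) M I
      (Phi.map (ex E) * d.Z.map (phiL (A.phi i) (X.p i) (X.hp i).ne_zero)) (d.Z * cM PhiH) →
    Cong (A.O i) (X.p i) M (PhiH.map (A.D a) + Ga' * PhiH)
      ((X.p i : E) • (PhiH * Ga'.map (A.phi i)))

/-- `Φ e = e` passes to the limit -/
def TRCStmt : Prop := ∀ (X : Idx) (E : Type) [Field E] (A : PF X E), A.Ax →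
  ∀ (m : Type) [Fintype m] [DecidableEq m] (G : Option A.J → Matrix m m (RatFunc E)) (e : m)
  (u : Type) [Fintype u] [DecidableEq u] (e' : u) (d : LD A G e u e'),
  ∃ I : ℕ, ∀ M C1 : ℕ, X.Ev fun i => ∀ Phi : Matrix m m (RatFunc E),
    (∀ a b, Phi a b ∈ A.ext.t i (C1 * X.p i)) →
    (∀ a, Phi a e - (if a = e then 1 else 0) ∈ pI (A.ext.O i) (X.p i) M) →
    ∀ PhiH : Matrix u u E, CongT (A.O i) (X.p i) M I
      (Phi.map (ex E) * d.Z.map (phiL (A.phi i) (X.p i) (X.hp i).ne_zero)) (d.Z * cM PhiH) →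
    ∀ a, PhiH a e' - (if a = e' then 1 else 0) ∈ pI (A.O i) (X.p i) M

/-- a package gives horizontal pairs, for the connection and its dual -/
def HPPStmt : Prop := ∀ (X : Idx) (E : Type) [Field E] (A : PF X E), A.Ax →
  ∀ (m : Type) [Fintype m] [DecidableEq m] (G : Option A.J → Matrix m m (RatFunc E))
  (chi : m → RatFunc E) (e : m) (n : ℕ), Pkg A.ext G chi e n →
  hasHP A ((G none).map (ex E)) n ∧ hasHP A ((-(G none).transpose).map (ex E)) n

/-- `chi Z` is regular -/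
def CHRStmt : Prop := ∀ (X : Idx) (E : Type) [Field E] (A : PF X E), A.Ax →
  ∀ (m : Type) [Fintype m] [DecidableEq m] (G : Option A.J → Matrix m m (RatFunc E))
  (chi : m → RatFunc E) (e : m) (n : ℕ), Pkg A.ext G chi e n →
  ∀ (u : Type) [Fintype u] [DecidableEq u] (e' : u) (d : LD A G e u e'),
  ∀ b, d.cs chi b ∈ Rg E

/-- `Φ = e φ(chi)` modulo `p` passes to the limit -/
def TRGStmt : Prop := ∀ (X : Idx) (E : Type) [Field E] (A : PF X E), A.Ax →
  ∀ (m : Type) [Fintype m] [DecidableEq m] (G : Option A.J → Matrix m m (RatFunc E))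
  (chi : m → RatFunc E) (e : m)
  (u : Type) [Fintype u] [DecidableEq u] (e' : u) (d : LD A G e u e'),
  (∀ b, d.cs chi b ∈ Rg E) →
  ∃ I : ℕ, ∀ C1 : ℕ, X.Ev fun i => ∀ Phi : Matrix m m (RatFunc E),
    (∀ a b, Phi a b ∈ A.ext.t i (C1 * X.p i)) →
    (∀ a b, Phi a b - (if a = e then A.ext.phi i (chi b) else 0) ∈
      pI (A.ext.O i) (X.p i) 1) →
    ∀ PhiH : Matrix u u E, CongT (A.O i) (X.p i) 1 I
      (Phi.map (ex E) * d.Z.map (phiL (A.phi i) (X.p i) (X.hp i).ne_zero)) (d.Z * cM PhiH) →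
    ∀ a b, PhiH a b - (if a = e' then A.phi i (d.chi' chi b) else 0) ∈ pI (A.O i) (X.p i) 1

/-! ### the limit theorem -/

/-- LIMIT THEOREM (a): existence of limit data -/
def LDXStmt : Prop := ∀ (X : Idx) (E : Type) [Field E] (A : PF X E), A.Ax →
  ∀ (m : Type) [Fintype m] [DecidableEq m] (G : Option A.J → Matrix m m (RatFunc E))
  (chi : m → RatFunc E) (e : m) (n : ℕ), Pkg A.ext G chi e n →
  ∃ (u : Type) (_ : Fintype u) (_ : DecidableEq u) (e' : u), Nonempty (LD A G e u e')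

/-- LIMIT THEOREM (b): transfer of Frobenius matrices, for all limit data -/
def TRAStmt : Prop := ∀ (X : Idx) (E : Type) [Field E] (A : PF X E), A.Ax → Finite A.J →
  ∀ (m : Type) [Fintype m] [DecidableEq m] (G : Option A.J → Matrix m m (RatFunc E))
  (chi : m → RatFunc E) (e : m) (n : ℕ), Pkg A.ext G chi e n →
  ∀ (u : Type) [Fintype u] [DecidableEq u] (e' : u) (d : LD A G e u e'),
  ∃ c : ℕ, ∀ M C1 I : ℕ, ∃ C2 : ℕ, X.Ev fun i => ∀ Phi Phi' : Matrix m m (RatFunc E),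
    Frob A.ext G chi e n i (M + c) C1 Phi Phi' →
    ∃ PhiH PhiH' : Matrix u u E, Frob A d.G' (d.chi' chi) e' n i M C2 PhiH PhiH' ∧
      CongT (A.O i) (X.p i) M I
        (Phi.map (ex E) * d.Z.map (phiL (A.phi i) (X.p i) (X.hp i).ne_zero))
        (d.Z * cM PhiH) ∧
      CongT (A.O i) (X.p i) M I
        (Phi'.map (ex E) * d.Z'.map (phiL (A.phi i) (X.p i) (X.hp i).ne_zero))
        (d.Z' * cM PhiH')

/-- LIMIT THEOREM (c): the limit is a package -/
def LPKStmt : Prop := ∀ (X : Idx) (E : Type) [Field E] (A : PF X E), A.Ax → Finite A.J →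
  ∀ (m : Type) [Fintype m] [DecidableEq m] (G : Option A.J → Matrix m m (RatFunc E))
  (chi : m → RatFunc E) (e : m) (n : ℕ), Pkg A.ext G chi e n →
  ∀ (u : Type) [Fintype u] [DecidableEq u] (e' : u) (d : LD A G e u e'),
  (∀ b, d.cs chi b ∈ Rg E) ∧ Pkg A d.G' (d.chi' chi) e' n

/-! ### functionals and base change -/

/-- horizontal functionals with logarithms: `δ = ∑ δ_j ℓ ^ j`, `∇ ℓ = 1`, `∇ δ = δ G` -/
def FN1Stmt : Prop := ∀ (E : Type) [Field E] (m : Type) [Fintype m] [DecidableEq m]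
  (G : Matrix m m (RatFunc E)) (u : Type) [Fintype u] [DecidableEq u] (d : LD0 G u)
  (K : Type) [Field K] (κ : E →+* K) (q : ℕ) (δ : ℕ → m → LaurentSeries K),
  (∀ j, q ≤ j → δ j = 0) →
  (∀ j b, nab (δ j b) + ((j : K) + 1) • δ (j + 1) b = ∑ a, δ j a * cmapR κ (ex E (G a b))) →
  ∃ x : ℕ → u → K, (∀ j, q ≤ j → x j = 0) ∧
    (∀ j a, δ j a = ∑ b, cmapR κ (d.Z' a b) * HahnSeries.C (x j b)) ∧
    (∀ j, Matrix.vecMul (x j) (d.N.map κ) = ((j : K) + 1) • x (j + 1)) ∧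
    ∀ j b, ∑ a, δ j a * cmapR κ (d.Z a b) = HahnSeries.C (x j b)

/-- base change of limit data -/
def BCHStmt : Prop := ∀ (X X1 : Idx) (E E1 : Type) [Field E] [Field E1] (A : PF X E)
  (A1 : PF X1 E1) (κ : E →+* E1) (τ : A1.J → A.J),
  (∀ a x, A1.D a (κ x) = κ (A.D (τ a) x)) →
  ∀ (κF : RatFunc E →+* RatFunc E1), (∀ x, ex E1 (κF x) = cmapR κ (ex E x)) →
  ∀ (m : Type) [Fintype m] [DecidableEq m] (G : Option A.J → Matrix m m (RatFunc E)) (e : m)
  (u : Type) [Fintype u] [DecidableEq u] (e' : u) (d : LD A G e u e'),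
  ∃ d1 : LD A1 (fun a => (G (a.map τ)).map κF) e u e',
    d1.Z = d.Z.map (cmapR κ) ∧ d1.Z' = d.Z'.map (cmapR κ) ∧ d1.N = d.N.map κ ∧
    ∀ a, d1.G' a = (d.G' (τ a)).map κ

end Pool.H93.Cube
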