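import Pool.Agent.H10.CM.PF

/-!
# Cube project (MP_47888e_al), block LIMIT: definitions and basic API

Blueprint: /team-store/CUBE91.md part B (helper91).  The field interface is
`Pool.Agent.H10.CM.PF` (helper10): `A : PF X E`, `A.ext : PF X (RatFunc E)`, `ex E`.

* `Dvr O p`      : `O` is a discrete valuation ring of the field `E` with uniformiser `p`;
* `pI O p M`     : the subgroup `p ^ M O` of `E`;
* `nab`          : `f ↦ λ df/dλ` on Laurent series; `cmap`, `cmapR` : coefficientwise maps;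
* `spr`          : `λ ↦ λ ^ p`; `phiL φ` : `φ` on coefficients and `λ ↦ λ ^ p`;
* `IL O`         : Laurent series with coefficients in `O`; `pL O p M` : coefficients in `p ^ M O`;
* `Rg`           : regular Laurent series (power series);
* `op G`         : the operator `∇ + G` on vectors of Laurent series;
* `NF`, `HP`, `BinOK`, `ROK` : normal form at `λ = 0`, horizontal pairs, growth conditions;
* `Frob`, `Pkg`, `LD0`, `LD` : Frobenius matrices, packages, limit data.
-/

set_option autoImplicit false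

open Polynomial Pool.CM

namespace Pool.H93.Cube

/-! ## Laurent series -/

section ser
variable {E K : Type} [Field E] [Field K]

/-- multiplication through bounded intervals -/
theorem coeff_mul_Icc {f g : LaurentSeries E} {a b : ℤ} (hf : ∀ k < a, f.coeff k = 0)
    (hg : ∀ k < b, g.coeff k = 0) (k : ℤ) :
    (f * g).coeff k = ∑ j ∈ Finset.Icc a (k - b), f.coeff j * g.coeff (k - j) := by
  classical
  rw [HahnSeries.coeff_mul]
  have hsub : ((Finset.Icc a (k - b)).filter (fun j => f.coeff j ≠ 0 ∧ g.coeff (k - j) ≠ 0)) ⊆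
      Finset.Icc a (k - b) := Finset.filter_subset _ _
  rw [← Finset.sum_subset hsub]
  · refine Finset.sum_nbij' (fun x => x.1) (fun j => (j, k - j)) ?_ ?_ ?_ ?_ ?_
    · rintro ⟨x, y⟩ h
      rw [Finset.mem_antidiagonal] at h
      obtain ⟨h1, h2, h3⟩ := h
      simp only at h1 h2 h3
      have hy : y = k - x := by omega
      subst hy
      refine Finset.mem_filter.2 ⟨Finset.mem_Icc.2 ⟨?_, ?_⟩, h1, h2⟩
      · by_contra hc
        exact h1 (hf _ (not_le.1 hc))
      · by_contra hc
        exact h2 (hg _ (by omega))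
    · intro j hj
      obtain ⟨h0, h1, h2⟩ := Finset.mem_filter.1 hj
      rw [Finset.mem_antidiagonal]
      exact ⟨h1, h2, by simp only; omega⟩
    · rintro ⟨x, y⟩ h
      rw [Finset.mem_antidiagonal] at h
      obtain ⟨h1, h2, h3⟩ := h
      simp only at h3
      simp only [Prod.mk.injEq, true_and]
      omega
    · intro j hj
      rfl
    · rintro ⟨x, y⟩ h
      rw [Finset.mem_antidiagonal] at h
      obtain ⟨h1, h2, h3⟩ := h
      simp only at h3
      have hy : y = k - x := by omega
      subst hy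
      rfl
  · intro j hj hn
    by_contra hc
    exact hn (Finset.mem_filter.2 ⟨hj, left_ne_zero_of_mul hc, right_ne_zero_of_mul hc⟩)

/-- every Laurent series vanishes below some integer -/
theorem exists_bound (f : LaurentSeries E) : ∃ a : ℤ, ∀ k < a, f.coeff k = 0 :=
  ⟨f.order, fun _ hk => HahnSeries.coeff_eq_zero_of_lt_order hk⟩

theorem exists_bound_fin {ι : Type} [Finite ι] (f : ι → LaurentSeries E) :
    ∃ a : ℤ, a ≤ 0 ∧ ∀ i, ∀ k < a, (f i).coeff k = 0 := by
  classical
  cases nonempty_fintype ι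
  choose a ha using fun i => exists_bound (f i)
  by_cases h : Nonempty ι
  · have hne : (Finset.univ.image a).Nonempty := Finset.univ_nonempty.image a
    refine ⟨min 0 ((Finset.univ.image a).min' hne), min_le_left _ _, fun i k hk => ha i k ?_⟩
    refine lt_of_lt_of_le hk (le_trans (min_le_right _ _) ?_)
    exact Finset.min'_le _ _ (Finset.mem_image_of_mem _ (Finset.mem_univ i))
  · exact ⟨0, le_refl _, fun i => (h ⟨i⟩).elim⟩

/-- `λ d/dλ` -/
noncomputable def nab : LaurentSeries E →ₗ[E] LaurentSeries E where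
  toFun f :=
    { coeff := fun k => (k : E) * f.coeff k
      isPWO_support' := f.isPWO_support'.mono fun k hk => by
        rw [Function.mem_support] at hk ⊢
        exact right_ne_zero_of_mul hk }
  map_add' f g := by
    ext k
    simp only [HahnSeries.coeff_add]
    ring
  map_smul' c f := by
    ext k
    simp only [HahnSeries.coeff_smul, smul_eq_mul, RingHom.id_apply]
    ring

@[simp] theorem nab_coeff (f : LaurentSeries E) (k : ℤ) : (nab f).coeff k = (k : E) * f.coeff k :=
  rfl

theorem nab_mul (f g : LaurentSeries E) : nab (f * g) = nab f * g + f * nab g := by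
  obtain ⟨a, ha⟩ := exists_bound f
  obtain ⟨b, hb⟩ := exists_bound g
  have ha' : ∀ k < a, (nab f).coeff k = 0 := fun k hk => by rw [nab_coeff, ha k hk, mul_zero]
  have hb' : ∀ k < b, (nab g).coeff k = 0 := fun k hk => by rw [nab_coeff, hb k hk, mul_zero]
  ext k
  rw [nab_coeff, HahnSeries.coeff_add, coeff_mul_Icc ha hb, coeff_mul_Icc ha' hb,
    coeff_mul_Icc ha hb', Finset.mul_sum, ← Finset.sum_add_distrib]
  refine Finset.sum_congr rfl fun j _ => ?_
  rw [nab_coeff, nab_coeff]
  push_cast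
  ring

@[simp] theorem nab_C (x : E) : nab (HahnSeries.C x : LaurentSeries E) = 0 := by
  ext k
  rw [nab_coeff, HahnSeries.C_apply]
  by_cases h : k = 0
  · subst h; simp
  · rw [HahnSeries.coeff_single_of_ne h]; simp

theorem nab_single (k : ℤ) (x : E) :
    nab (HahnSeries.single k x : LaurentSeries E) = HahnSeries.single k ((k : E) * x) := by
  ext j
  rw [nab_coeff]
  by_cases h : j = k
  · subst h; simp
  · rw [HahnSeries.coeff_single_of_ne h, HahnSeries.coeff_single_of_ne h]; simp

theorem nab_one : nab (1 : LaurentSeries E) = 0 := by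
  rw [← map_one (HahnSeries.C : E →+* LaurentSeries E), nab_C]

/-- coefficientwise additive map -/
noncomputable def cmap (δ : E →+ K) : LaurentSeries E →+ LaurentSeries K where
  toFun f := f.map δ
  map_zero' := by ext k; simp
  map_add' f g := by ext k; simp

@[simp] theorem cmap_coeff (δ : E →+ K) (f : LaurentSeries E) (k : ℤ) :
    (cmap δ f).coeff k = δ (f.coeff k) := rfl

/-- coefficientwise ring hom -/
noncomputable def cmapR (φ : E →+* K) : LaurentSeries E →+* LaurentSeries K where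
  toFun f := f.map φ
  map_zero' := by ext k; simp
  map_add' f g := by ext k; simp
  map_one' := by
    ext k
    by_cases h : k = 0
    · subst h; simp
    · simp [HahnSeries.coeff_one, h]
  map_mul' f g := by
    ext k
    simp only [HahnSeries.map_coeff]
    obtain ⟨a, ha⟩ := exists_bound f
    obtain ⟨b, hb⟩ := exists_bound g
    rw [coeff_mul_Icc ha hb, coeff_mul_Icc (f := f.map φ) (g := g.map φ) (a := a) (b := b)
      (fun k hk => by simp [ha k hk]) (fun k hk => by simp [hb k hk]), map_sum]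
    exact Finset.sum_congr rfl fun j _ => by simp

@[simp] theorem cmapR_coeff (φ : E →+* K) (f : LaurentSeries E) (k : ℤ) :
    (cmapR φ f).coeff k = φ (f.coeff k) := rfl

theorem cmapR_single (φ : E →+* K) (k : ℤ) (x : E) :
    cmapR φ (HahnSeries.single k x) = HahnSeries.single k (φ x) := by
  ext j
  rw [cmapR_coeff]
  by_cases h : j = k
  · subst h; simp
  · rw [HahnSeries.coeff_single_of_ne h, HahnSeries.coeff_single_of_ne h]; simp

theorem cmapR_C (φ : E →+* K) (x : E) : cmapR φ (HahnSeries.C x) = HahnSeries.C (φ x) :=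
  cmapR_single φ 0 x

theorem cmapR_injective (φ : E →+* K) : Function.Injective (cmapR φ) := fun f g h => by
  ext k
  have := congrArg (fun x => HahnSeries.coeff x k) h
  exact φ.injective this

theorem nab_cmapR (φ : E →+* K) (f : LaurentSeries E) : nab (cmapR φ f) = cmapR φ (nab f) := by
  ext k
  simp

/-- a derivation of `E` acts coefficientwise as a derivation -/
theorem cmap_mul (δ : Derivation ℤ E E) (f g : LaurentSeries E) :
    cmap (δ : E →+ E) (f * g) = cmap (δ : E →+ E) f * g + f * cmap (δ : E →+ E) g := by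
  obtain ⟨a, ha⟩ := exists_bound f
  obtain ⟨b, hb⟩ := exists_bound g
  have ha' : ∀ k < a, (cmap (δ : E →+ E) f).coeff k = 0 := fun k hk => by
    rw [cmap_coeff, ha k hk, map_zero]
  have hb' : ∀ k < b, (cmap (δ : E →+ E) g).coeff k = 0 := fun k hk => by
    rw [cmap_coeff, hb k hk, map_zero]
  ext k
  rw [cmap_coeff, HahnSeries.coeff_add, coeff_mul_Icc ha hb, coeff_mul_Icc ha' hb,
    coeff_mul_Icc ha hb', map_sum, ← Finset.sum_add_distrib]
  refine Finset.sum_congr rfl fun j _ => ?_
  rw [cmap_coeff, cmap_coeff]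
  have := δ.leibniz (f.coeff j) (g.coeff (k - j))
  simp only [smul_eq_mul] at this
  change δ (f.coeff j * g.coeff (k - j)) = _
  rw [this]
  change _ = δ (f.coeff j) * _ + _ * δ (g.coeff (k - j))
  ring

theorem nab_cmap (δ : Derivation ℤ E E) (f : LaurentSeries E) :
    nab (cmap (δ : E →+ E) f) = cmap (δ : E →+ E) (nab f) := by
  ext k
  rw [nab_coeff, cmap_coeff, cmap_coeff, nab_coeff]
  change (k : E) * δ (f.coeff k) = δ ((k : E) * f.coeff k)
  rw [δ.leibniz]
  simp

/-- `λ ↦ λ ^ p` -/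
noncomputable def spr (p : ℕ) (hp : p ≠ 0) : LaurentSeries E →+* LaurentSeries E :=
  HahnSeries.embDomainRingHom (AddMonoidHom.mulLeft (p : ℤ))
    (fun _ _ h => mul_left_cancel₀ (Int.natCast_ne_zero.2 hp) h)
    (fun _ _ => mul_le_mul_iff_right₀ (by exact_mod_cast Nat.pos_of_ne_zero hp))

theorem spr_coeff_mul (p : ℕ) (hp : p ≠ 0) (f : LaurentSeries E) (k : ℤ) :
    (spr p hp f).coeff (p * k) = f.coeff k :=
  HahnSeries.embDomain_mk_coeff (f := fun k : ℤ => (p : ℤ) * k)
    (fun _ _ h => mul_left_cancel₀ (Int.natCast_ne_zero.2 hp) h)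
    (fun _ _ => mul_le_mul_iff_right₀ (by exact_mod_cast Nat.pos_of_ne_zero hp))

theorem spr_coeff_not (p : ℕ) (hp : p ≠ 0) (f : LaurentSeries E) (k : ℤ) (h : ¬ (p : ℤ) ∣ k) :
    (spr p hp f).coeff k = 0 := by
  refine HahnSeries.embDomain_of_notMem_range ?_
  rintro ⟨j, hj⟩
  exact h ⟨j, hj.symm⟩

theorem spr_coeff (p : ℕ) (hp : p ≠ 0) (f : LaurentSeries E) (k : ℤ) :
    (spr p hp f).coeff k = if (p : ℤ) ∣ k then f.coeff (k / p) else 0 := by
  split_ifs with h
  · obtain ⟨j, rfl⟩ := h
    rw [spr_coeff_mul, Int.mul_ediv_cancel_left _ (Int.natCast_ne_zero.2 hp)]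
  · exact spr_coeff_not p hp f k h

theorem spr_injective (p : ℕ) (hp : p ≠ 0) :
    Function.Injective (spr p hp : LaurentSeries E → LaurentSeries E) := fun f g h => by
  ext k
  rw [← spr_coeff_mul p hp f k, ← spr_coeff_mul p hp g k, h]

theorem spr_single (p : ℕ) (hp : p ≠ 0) (k : ℤ) (x : E) :
    spr p hp (HahnSeries.single k x : LaurentSeries E) = HahnSeries.single (p * k) x := by
  ext j
  rw [spr_coeff]
  split_ifs with h
  · obtain ⟨l, rfl⟩ := h
    rw [Int.mul_ediv_cancel_left _ (Int.natCast_ne_zero.2 hp)]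
    by_cases hl : l = k
    · subst hl; simp
    · rw [HahnSeries.coeff_single_of_ne hl, HahnSeries.coeff_single_of_ne]
      exact fun h => hl (mul_left_cancel₀ (Int.natCast_ne_zero.2 hp) h)
  · rw [HahnSeries.coeff_single_of_ne]
    rintro rfl
    exact h ⟨k, rfl⟩

theorem spr_C (p : ℕ) (hp : p ≠ 0) (x : E) :
    spr p hp (HahnSeries.C x : LaurentSeries E) = HahnSeries.C x := by
  rw [HahnSeries.C_apply, spr_single, mul_zero]

theorem nab_spr (p : ℕ) (hp : p ≠ 0) (f : LaurentSeries E) :
    nab (spr p hp f) = HahnSeries.C (p : E) * spr p hp (nab f) := by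
  ext k
  rw [nab_coeff, HahnSeries.C_mul_eq_smul, HahnSeries.coeff_smul, spr_coeff, spr_coeff]
  split_ifs with h
  · obtain ⟨l, rfl⟩ := h
    rw [Int.mul_ediv_cancel_left _ (Int.natCast_ne_zero.2 hp), nab_coeff, smul_eq_mul]
    push_cast
    ring
  · simp

/-- Frobenius on Laurent series: `φ` on the coefficients and `λ ↦ λ ^ p` -/
noncomputable def phiL (φ : E →+* K) (p : ℕ) (hp : p ≠ 0) : LaurentSeries E →+* LaurentSeries K :=
  (spr p hp).comp (cmapR φ)

theorem phiL_apply (φ : E →+* K) (p : ℕ) (hp : p ≠ 0) (f : LaurentSeries E) :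
    phiL φ p hp f = spr p hp (cmapR φ f) := rfl

theorem phiL_coeff_mul (φ : E →+* K) (p : ℕ) (hp : p ≠ 0) (f : LaurentSeries E) (k : ℤ) :
    (phiL φ p hp f).coeff (p * k) = φ (f.coeff k) := by
  rw [phiL_apply, spr_coeff_mul, cmapR_coeff]

theorem phiL_coeff_not (φ : E →+* K) (p : ℕ) (hp : p ≠ 0) (f : LaurentSeries E) (k : ℤ)
    (h : ¬ (p : ℤ) ∣ k) : (phiL φ p hp f).coeff k = 0 := by
  rw [phiL_apply, spr_coeff_not _ _ _ _ h]

theorem phiL_coeff (φ : E →+* K) (p : ℕ) (hp : p ≠ 0) (f : LaurentSeries E) (k : ℤ) :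
    (phiL φ p hp f).coeff k = if (p : ℤ) ∣ k then φ (f.coeff (k / p)) else 0 := by
  rw [phiL_apply, spr_coeff]
  rfl

theorem phiL_C (φ : E →+* K) (p : ℕ) (hp : p ≠ 0) (x : E) :
    phiL φ p hp (HahnSeries.C x) = HahnSeries.C (φ x) := by
  rw [phiL_apply, cmapR_C, spr_C]

theorem phiL_single (φ : E →+* K) (p : ℕ) (hp : p ≠ 0) (k : ℤ) (x : E) :
    phiL φ p hp (HahnSeries.single k x) = HahnSeries.single (p * k) (φ x) := by
  rw [phiL_apply, cmapR_single, spr_single]

theorem nab_phiL (φ : E →+* K) (p : ℕ) (hp : p ≠ 0) (f : LaurentSeries E) :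
    nab (phiL φ p hp f) = HahnSeries.C (p : K) * phiL φ p hp (nab f) := by
  rw [phiL_apply, nab_spr, nab_cmapR]
  rfl

theorem cmap_phiL (φ : E →+* E) (δ : Derivation ℤ E E) (p : ℕ) (hp : p ≠ 0)
    (h : ∀ x, δ (φ x) = (p : E) * φ (δ x)) (f : LaurentSeries E) :
    cmap (δ : E →+ E) (phiL φ p hp f) =
      HahnSeries.C (p : E) * phiL φ p hp (cmap (δ : E →+ E) f) := by
  ext k
  rw [cmap_coeff, HahnSeries.C_mul_eq_smul, HahnSeries.coeff_smul, phiL_coeff, phiL_coeff]
  split_ifs with hk
  · rw [cmap_coeff, smul_eq_mul]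
    exact h _
  · simp

/-- regular Laurent series -/
def Rg (E : Type) [Field E] : Subring (LaurentSeries E) where
  carrier := {f | ∀ k < 0, f.coeff k = 0}
  mul_mem' := by
    intro f g hf hg k hk
    rw [coeff_mul_Icc hf hg, Finset.Icc_eq_empty (by omega), Finset.sum_empty]
  one_mem' := by
    intro k hk
    rw [HahnSeries.coeff_one, if_neg (by omega)]
  add_mem' := by
    intro f g hf hg k hk
    rw [HahnSeries.coeff_add, hf k hk, hg k hk, add_zero]
  zero_mem' := fun k _ => rfl
  neg_mem' := by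
    intro f hf k hk
    rw [HahnSeries.coeff_neg, hf k hk, neg_zero]

theorem mem_Rg {f : LaurentSeries E} : f ∈ Rg E ↔ ∀ k < 0, f.coeff k = 0 := Iff.rfl

/-- constant term of a product of regular series -/
theorem coeff_zero_mul {f g : LaurentSeries E} (hf : f ∈ Rg E) (hg : g ∈ Rg E) :
    (f * g).coeff 0 = f.coeff 0 * g.coeff 0 := by
  rw [coeff_mul_Icc hf hg]
  simp

end ser

/-! ## Discrete valuation rings -/

section dvr
variable {E : Type} [Field E]

/-- `O` is a discrete valuation ring of `E` with uniformiser `p`. -/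
structure Dvr (O : Subring E) (p : ℕ) : Prop where
  prime : p.Prime
  fac : ∀ x : E, x ≠ 0 → ∃ n : ℤ, ∃ u ∈ O, u⁻¹ ∈ O ∧ x = (p : E) ^ n * u
  pinv : (p : E)⁻¹ ∉ O

/-- `p ^ M O` -/
def pI (O : Subring E) (p M : ℕ) : AddSubgroup E where
  carrier := {x | ∃ b ∈ O, x = (p : E) ^ M * b}
  add_mem' := by
    rintro x y ⟨b, hb, rfl⟩ ⟨c, hc, rfl⟩
    exact ⟨b + c, O.add_mem hb hc, by ring⟩
  zero_mem' := ⟨0, O.zero_mem, by ring⟩
  neg_mem' := by
    rintro x ⟨b, hb, rfl⟩
    exact ⟨-b, O.neg_mem hb, by ring⟩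

theorem mem_pI {O : Subring E} {p M : ℕ} {x : E} :
    x ∈ pI O p M ↔ ∃ b ∈ O, x = (p : E) ^ M * b := Iff.rfl

theorem mem_pI_zero {O : Subring E} {p : ℕ} {x : E} : x ∈ pI O p 0 ↔ x ∈ O := by
  rw [mem_pI]
  constructor
  · rintro ⟨b, hb, rfl⟩
    simpa using hb
  · exact fun h => ⟨x, h, by simp⟩

theorem pI_le {O : Subring E} {p M N : ℕ} (h : N ≤ M) : pI O p M ≤ pI O p N := by
  rintro x ⟨b, hb, rfl⟩
  refine ⟨(p : E) ^ (M - N) * b, O.mul_mem (O.pow_mem (natCast_mem O p) _) hb, ?_⟩
  rw [← mul_assoc, ← pow_add, Nat.add_sub_cancel' h]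

theorem pI_sub_O {O : Subring E} {p M : ℕ} {x : E} (h : x ∈ pI O p M) : x ∈ O :=
  mem_pI_zero.1 (pI_le (Nat.zero_le M) h)

theorem pI_mul {O : Subring E} {p M N : ℕ} {x y : E} (hx : x ∈ pI O p M) (hy : y ∈ pI O p N) :
    x * y ∈ pI O p (M + N) := by
  obtain ⟨b, hb, rfl⟩ := hx
  obtain ⟨c, hc, rfl⟩ := hy
  exact ⟨b * c, O.mul_mem hb hc, by ring⟩

theorem pI_mul_left {O : Subring E} {p M : ℕ} {x y : E} (hx : x ∈ O) (hy : y ∈ pI O p M) :
    x * y ∈ pI O p M := by
  obtain ⟨c, hc, rfl⟩ := hy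
  exact ⟨x * c, O.mul_mem hx hc, by ring⟩

theorem pI_mul_right {O : Subring E} {p M : ℕ} {x y : E} (hx : x ∈ pI O p M) (hy : y ∈ O) :
    x * y ∈ pI O p M := by
  rw [mul_comm]
  exact pI_mul_left hy hx

theorem pow_mem_pI {O : Subring E} {p M : ℕ} : (p : E) ^ M ∈ pI O p M :=
  ⟨1, O.one_mem, by ring⟩

namespace Dvr
variable {O : Subring E} {p : ℕ} (h : Dvr O p)
include h

theorem p_ne : (p : E) ≠ 0 := fun h0 => h.pinv (by rw [h0, inv_zero]; exact O.zero_mem)

/-- `p ^ n u` with `u` a unit is in `O` iff `0 ≤ n` -/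
theorem zpow_mem_iff {n : ℤ} {u : E} (hu : u ∈ O) (hu' : u⁻¹ ∈ O) (hu0 : u ≠ 0) :
    (p : E) ^ n * u ∈ O ↔ 0 ≤ n := by
  constructor
  · intro hm
    by_contra hn
    push Not at hn
    have h1 : (p : E) ^ n ∈ O := by
      have := O.mul_mem hm hu'
      rwa [mul_assoc, mul_inv_cancel₀ hu0, mul_one] at this
    refine h.pinv ?_
    have h2 : (p : E)⁻¹ = (p : E) ^ n * (p : E) ^ (-1 - n).toNat := by
      rw [← zpow_natCast, Int.toNat_of_nonneg (by omega), ← zpow_add₀ h.p_ne, ← zpow_neg_one]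
      congr 1
      ring
    rw [h2]
    exact O.mul_mem h1 (O.pow_mem (natCast_mem O p) _)
  · intro hn
    obtain ⟨k, rfl⟩ := Int.eq_ofNat_of_zero_le hn
    rw [zpow_natCast]
    exact O.mul_mem (O.pow_mem (natCast_mem O p) _) hu

/-- an integer prime to `p` is a unit -/
theorem int_unit {z : ℤ} (hz : ¬ (p : ℤ) ∣ z) : (z : E)⁻¹ ∈ O ∧ (z : E) ≠ 0 := by
  have hcop : IsCoprime (p : ℤ) z :=
    (Nat.prime_iff_prime_int.1 h.prime).coprime_iff_not_dvd.2 hz
  obtain ⟨a, b, hab⟩ := hcop
  have habE : (a : E) * p + b * z = 1 := by exact_mod_cast congrArg (Int.cast : ℤ → E) hab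
  have hzO : (z : E) ∈ O := intCast_mem O z
  have hz0 : (z : E) ≠ 0 := by
    intro h0
    rw [h0, mul_zero, add_zero] at habE
    refine h.pinv ?_
    have : (p : E)⁻¹ = a := by
      field_simp [h.p_ne]
      rw [mul_comm]; exact habE.symm
    rw [this]
    exact intCast_mem O a
  obtain ⟨n, u, hu, hu', he⟩ := h.fac _ hz0
  have hu0 : u ≠ 0 := by
    rintro rfl
    rw [mul_zero] at he
    exact hz0 he
  have hn : 0 ≤ n := (h.zpow_mem_iff hu hu' hu0).1 (he ▸ hzO)
  have hn0 : n = 0 := by
    by_contra hne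
    have hpos : 1 ≤ n := by omega
    obtain ⟨k, rfl⟩ : ∃ k : ℕ, n = k + 1 := ⟨(n - 1).toNat, by omega⟩
    refine h.pinv ?_
    have hzz : (z : E) = p * ((p : E) ^ k * u) := by
      rw [he, zpow_add₀ h.p_ne, zpow_natCast, zpow_one]
      ring
    have : (p : E)⁻¹ = a + b * ((p : E) ^ k * u) := by
      have h1 : (p : E) * (a + b * ((p : E) ^ k * u)) = 1 := by
        rw [← habE, hzz]
        ring
      exact inv_eq_of_mul_eq_one_right h1
    rw [this]
    exact O.add_mem (intCast_mem O a)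
      (O.mul_mem (intCast_mem O b) (O.mul_mem (O.pow_mem (natCast_mem O p) _) hu))
  refine ⟨?_, hz0⟩
  rw [he, hn0, zpow_zero, one_mul]
  exact hu'

/-- division by `p ^ M` -/
theorem of_mul_mem {M N : ℕ} {x : E} (hx : (p : E) ^ M * x ∈ pI O p (M + N)) : x ∈ pI O p N := by
  obtain ⟨b, hb, he⟩ := hx
  refine ⟨b, hb, ?_⟩
  have hM : (p : E) ^ M ≠ 0 := pow_ne_zero _ h.p_ne
  rw [pow_add, mul_assoc] at he
  exact mul_left_cancel₀ hM he

theorem p_not_unit {x : E} (hx : x ∈ O) : (p : E) * x ≠ 1 := fun he => by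
  refine h.pinv ?_
  rw [inv_eq_of_mul_eq_one_right he]
  exact hx

/-- the residue ring is a field: an element of `O` outside `p O` is a unit -/
theorem unit_of_not_mem {x : E} (hx : x ∈ O) (hx' : x ∉ pI O p 1) : x⁻¹ ∈ O ∧ x ≠ 0 := by
  have hx0 : x ≠ 0 := by
    rintro rfl
    exact hx' (zero_mem _)
  obtain ⟨n, u, hu, hu', he⟩ := h.fac _ hx0
  have hu0 : u ≠ 0 := by
    rintro rfl
    rw [mul_zero] at he
    exact hx0 he
  have hn : 0 ≤ n := (h.zpow_mem_iff hu hu' hu0).1 (he ▸ hx)
  have hn0 : n = 0 := by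
    by_contra hne
    obtain ⟨k, rfl⟩ : ∃ k : ℕ, n = k + 1 := ⟨(n - 1).toNat, by omega⟩
    refine hx' ⟨(p : E) ^ k * u, O.mul_mem (O.pow_mem (natCast_mem O p) _) hu, ?_⟩
    rw [he, zpow_add₀ h.p_ne, zpow_natCast, zpow_one]
    ring
  refine ⟨?_, hx0⟩
  rw [he, hn0, zpow_zero, one_mul]
  exact hu'

theorem not_mem_of_unit {x : E} (hx' : x⁻¹ ∈ O) (hx0 : x ≠ 0) : x ∉ pI O p 1 := by
  rintro ⟨b, hb, he⟩
  rw [pow_one] at he
  refine h.p_not_unit (O.mul_mem hb hx') ?_
  rw [← mul_assoc, ← he, mul_inv_cancel₀ hx0]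

end Dvr

/-! ## Integral Laurent series -/

/-- Laurent series with coefficients in `O` -/
def IL (O : Subring E) : Subring (LaurentSeries E) where
  carrier := {f | ∀ k, f.coeff k ∈ O}
  mul_mem' := by
    intro f g hf hg k
    obtain ⟨a, ha⟩ := exists_bound f
    obtain ⟨b, hb⟩ := exists_bound g
    rw [coeff_mul_Icc ha hb]
    exact O.sum_mem fun j _ => O.mul_mem (hf _) (hg _)
  one_mem' := by
    intro k
    rw [HahnSeries.coeff_one]
    split_ifs
    · exact O.one_mem
    · exact O.zero_mem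
  add_mem' := by
    intro f g hf hg k
    rw [HahnSeries.coeff_add]
    exact O.add_mem (hf k) (hg k)
  zero_mem' := fun k => O.zero_mem
  neg_mem' := by
    intro f hf k
    rw [HahnSeries.coeff_neg]
    exact O.neg_mem (hf k)

theorem mem_IL {O : Subring E} {f : LaurentSeries E} : f ∈ IL O ↔ ∀ k, f.coeff k ∈ O := Iff.rfl

/-- Laurent series with coefficients in `p ^ M O` -/
def pL (O : Subring E) (p M : ℕ) : AddSubgroup (LaurentSeries E) where
  carrier := {f | ∀ k, f.coeff k ∈ pI O p M}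
  add_mem' := by
    intro f g hf hg k
    rw [HahnSeries.coeff_add]
    exact add_mem (hf k) (hg k)
  zero_mem' := fun k => zero_mem _
  neg_mem' := by
    intro f hf k
    rw [HahnSeries.coeff_neg]
    exact neg_mem (hf k)

theorem mem_pL {O : Subring E} {p M : ℕ} {f : LaurentSeries E} :
    f ∈ pL O p M ↔ ∀ k, f.coeff k ∈ pI O p M := Iff.rfl

theorem mem_pL_iff {O : Subring E} {p M : ℕ} {f : LaurentSeries E} :
    f ∈ pL O p M ↔ ∃ g ∈ IL O, f = HahnSeries.C ((p : E) ^ M) * g := by
  constructor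
  · intro hf
    choose b hb he using hf
    by_cases hp : (p : E) ^ M = 0
    · refine ⟨0, zero_mem _, ?_⟩
      ext k
      rw [he k, hp, zero_mul, mul_zero, HahnSeries.coeff_zero]
    · refine ⟨HahnSeries.C (((p : E) ^ M)⁻¹) * f, fun k => ?_, ?_⟩
      · rw [HahnSeries.C_mul_eq_smul, HahnSeries.coeff_smul, he k, smul_eq_mul,
          inv_mul_cancel_left₀ hp]
        exact hb k
      · rw [← mul_assoc, ← map_mul, mul_inv_cancel₀ hp, map_one, one_mul]
  · rintro ⟨g, hg, rfl⟩ k
    rw [HahnSeries.C_mul_eq_smul, HahnSeries.coeff_smul, smul_eq_mul]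
    exact ⟨_, hg k, rfl⟩

theorem pL_zero {O : Subring E} {p : ℕ} {f : LaurentSeries E} : f ∈ pL O p 0 ↔ f ∈ IL O := by
  simp only [mem_pL, mem_pI_zero, mem_IL]

theorem pL_le {O : Subring E} {p M N : ℕ} (h : N ≤ M) : pL O p M ≤ pL O p N :=
  fun _ hf k => pI_le h (hf k)

theorem pL_mul {O : Subring E} {p M N : ℕ} {f g : LaurentSeries E} (hf : f ∈ pL O p M)
    (hg : g ∈ pL O p N) : f * g ∈ pL O p (M + N) := by
  intro k
  obtain ⟨a, ha⟩ := exists_bound f
  obtain ⟨b, hb⟩ := exists_bound g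
  rw [coeff_mul_Icc ha hb]
  exact sum_mem fun j _ => pI_mul (hf _) (hg _)

theorem pL_mul_left {O : Subring E} {p M : ℕ} {f g : LaurentSeries E} (hf : f ∈ IL O)
    (hg : g ∈ pL O p M) : f * g ∈ pL O p M := by
  have := pL_mul (pL_zero.2 hf : f ∈ pL O p 0) hg
  rwa [zero_add] at this

theorem pL_mul_right {O : Subring E} {p M : ℕ} {f g : LaurentSeries E} (hf : f ∈ pL O p M)
    (hg : g ∈ IL O) : f * g ∈ pL O p M := by
  rw [mul_comm]
  exact pL_mul_left hg hf

theorem C_mem_IL {O : Subring E} {x : E} (hx : x ∈ O) : (HahnSeries.C x : LaurentSeries E) ∈ IL O := by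
  intro k
  rw [HahnSeries.C_apply]
  by_cases h : k = 0
  · subst h; simpa using hx
  · rw [HahnSeries.coeff_single_of_ne h]; exact O.zero_mem

theorem single_mem_IL {O : Subring E} {x : E} (hx : x ∈ O) (j : ℤ) :
    (HahnSeries.single j x : LaurentSeries E) ∈ IL O := by
  intro k
  by_cases h : k = j
  · subst h; simpa using hx
  · rw [HahnSeries.coeff_single_of_ne h]; exact O.zero_mem

theorem nab_mem_IL {O : Subring E} {f : LaurentSeries E} (hf : f ∈ IL O) : nab f ∈ IL O := by
  intro k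
  rw [nab_coeff]
  exact O.mul_mem (intCast_mem O k) (hf k)

theorem nab_mem_pL {O : Subring E} {p M : ℕ} {f : LaurentSeries E} (hf : f ∈ pL O p M) :
    nab f ∈ pL O p M := by
  intro k
  rw [nab_coeff]
  exact pI_mul_left (intCast_mem O k) (hf k)

theorem phiL_mem_IL {O : Subring E} {φ : E →+* E} (hφ : ∀ x ∈ O, φ x ∈ O) (p : ℕ) (hp : p ≠ 0)
    {f : LaurentSeries E} (hf : f ∈ IL O) : phiL φ p hp f ∈ IL O := by
  intro k
  rw [phiL_coeff]
  split_ifs
  · exact hφ _ (hf _)
  · exact O.zero_mem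

theorem spr_mem_IL {O : Subring E} (p : ℕ) (hp : p ≠ 0) {f : LaurentSeries E} (hf : f ∈ IL O) :
    spr p hp f ∈ IL O := by
  intro k
  rw [spr_coeff]
  split_ifs
  · exact hf _
  · exact O.zero_mem

theorem cmapR_mem_IL {O : Subring E} {φ : E →+* E} (hφ : ∀ x ∈ O, φ x ∈ O)
    {f : LaurentSeries E} (hf : f ∈ IL O) : cmapR φ f ∈ IL O := fun k => hφ _ (hf k)

end dvr

/-! ## Operators -/

section ops
variable {E : Type} [Field E] {m : Type} [Fintype m]

/-- the operator `∇ + G` on vectors of Laurent series -/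
noncomputable def op (G : Matrix m m (LaurentSeries E)) :
    (m → LaurentSeries E) →ₗ[E] (m → LaurentSeries E) where
  toFun v := (fun a => nab (v a)) + G.mulVec v
  map_add' v w := by
    rw [Matrix.mulVec_add]
    funext a
    simp only [Pi.add_apply, map_add]
    ring
  map_smul' c v := by
    funext a
    have h : G.mulVec (c • v) a = c • G.mulVec v a := by
      simp only [Matrix.mulVec, dotProduct, Pi.smul_apply, ← HahnSeries.C_mul_eq_smul,
        Finset.mul_sum]
      exact Finset.sum_congr rfl fun b _ => by ring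
    simp only [Pi.add_apply, Pi.smul_apply, map_smul, RingHom.id_apply, smul_add, h]

theorem op_apply (G : Matrix m m (LaurentSeries E)) (v : m → LaurentSeries E) (a : m) :
    op G v a = nab (v a) + ∑ b, G a b * v b := rfl

/-- the operator `∇ + G` over a field with derivation -/
def opF {F : Type} [Field F] (d : Derivation ℤ F F) (G : Matrix m m F) :
    (m → F) →ₗ[ℤ] (m → F) where
  toFun v := (fun a => d (v a)) + G.mulVec v
  map_add' v w := by
    rw [Matrix.mulVec_add]
    funext a
    simp only [Pi.add_apply, map_add]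
    ring
  map_smul' c v := by
    rw [Matrix.mulVec_smul]
    funext a
    simp only [Pi.add_apply, Pi.smul_apply, map_zsmul, RingHom.id_apply, smul_add]

theorem opF_apply {F : Type} [Field F] (d : Derivation ℤ F F) (G : Matrix m m F) (v : m → F)
    (a : m) : opF d G v a = d (v a) + ∑ b, G a b * v b := rfl

end ops

/-! ## Matrices of Laurent series, normal form, horizontal pairs -/

section mats
variable {E : Type} [Field E] {m m' : Type}

/-- the matrix of constant terms -/
def cz (G : Matrix m m' (LaurentSeries E)) : Matrix m m' E := fun a b => (G a b).coeff 0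

/-- all entries are regular at `λ = 0` -/
def MReg (G : Matrix m m' (LaurentSeries E)) : Prop := ∀ a b, G a b ∈ Rg E

/-- all entries have integral coefficients -/
def MInt (O : Subring E) (G : Matrix m m' (LaurentSeries E)) : Prop := ∀ a b, G a b ∈ IL O

/-- all entries have integral coefficients -/
def VInt (O : Subring E) (v : m → LaurentSeries E) : Prop := ∀ a, v a ∈ IL O

/-- congruence modulo `p ^ M` of matrices -/
def Cong (O : Subring E) (p M : ℕ) (X Y : Matrix m m' E) : Prop :=
  ∀ a b, X a b - Y a b ∈ pI O p M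

/-- congruence modulo `p ^ M` of matrices of Laurent series -/
def CongL (O : Subring E) (p M : ℕ) (X Y : Matrix m m' (LaurentSeries E)) : Prop :=
  ∀ a b, X a b - Y a b ∈ pL O p M

/-- `X` and `Y` agree modulo `p ^ M` in all orders `< K` -/
def CongT (O : Subring E) (p M : ℕ) (K : ℤ) (X Y : Matrix m m' (LaurentSeries E)) : Prop :=
  ∀ a b, ∀ k < K, (X a b).coeff k - (Y a b).coeff k ∈ pI O p M

/-- constant matrices -/
noncomputable abbrev cM (X : Matrix m m' E) : Matrix m m' (LaurentSeries E) :=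
  X.map HahnSeries.C

/-- Normal form at `λ = 0`: regular with residue `diag(Bu, Bn)`, `Bu` nilpotent, `Bn` without
integer eigenvalue. -/
structure NF {u w : Type} [Fintype u] [DecidableEq u] [Fintype w] [DecidableEq w]
    (G : Matrix (u ⊕ w) (u ⊕ w) (LaurentSeries E)) (Bu : Matrix u u E) (Bn : Matrix w w E) :
    Prop where
  reg : MReg G
  c0 : cz G = Matrix.fromBlocks Bu 0 0 Bn
  nil : IsNilpotent Bu
  inv : ∀ z : ℤ, (Bn + (z : E) • (1 : Matrix w w E)).det ≠ 0

variable [Fintype m] [DecidableEq m]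

/-- At one place: `Φ, Ψ` integral, `(∇ + G) Φ = p Φ φ(G)` and `Φ Ψ = p ^ n` modulo `p ^ M`. -/
structure HP (O : Subring E) (p : ℕ) (hp : p ≠ 0) (φ : E →+* E) (M n : ℕ)
    (G Phi Psi : Matrix m m (LaurentSeries E)) : Prop where
  iPhi : MInt O Phi
  iPsi : MInt O Psi
  hor : CongL O p M (Phi.map nab + G * Phi)
    ((HahnSeries.C (p : E) : LaurentSeries E) • (Phi * G.map (phiL φ p hp)))
  mul : CongL O p M (Phi * Psi) ((HahnSeries.C ((p : E) ^ n) : LaurentSeries E) • 1)

omit [DecidableEq m] in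
/-- At one place: `p ^ n binom(∇ + G, j)` is integral for `j ≤ J`. -/
def BinOK (O : Subring E) (p n : ℕ) (G : Matrix m m (LaurentSeries E)) (J : ℕ) : Prop :=
  ∀ j ≤ J, ∀ v, VInt O v → ∃ w, VInt O w ∧
    (p : E) ^ n • (aeval (op G) (descPochhammer E j) v) = (j.factorial : E) • w

omit [DecidableEq m] in
/-- At one place: vectors of pole order `≤ P` which are killed by `(∇ + G) ^ q` modulo regular
vectors and modulo `p ^ M` are regular modulo `p ^ M`, up to a loss of `p ^ c`. -/
def ROK (O : Subring E) (p : ℕ) (G : Matrix m m (LaurentSeries E)) (q c P : ℕ) : Prop :=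
  ∀ (M : ℕ) (v : m → LaurentSeries E), (∀ a, ∀ k < -(P : ℤ), (v a).coeff k = 0) →
    (∀ a, ∀ k < 0, (((op G) ^ q) v a).coeff k ∈ pI O p M) →
      ∀ a, ∀ k < 0, (p : E) ^ c * (v a).coeff k ∈ pI O p M

/-- For all precisions and almost all places there is a horizontal pair. -/
def hasHP {X : Idx} (A : PF X E) (G : Matrix m m (LaurentSeries E)) (n : ℕ) : Prop :=
  X.Ev (fun i => MInt (A.O i) G) ∧
  ∀ M, X.Ev fun i => ∃ Phi Psi : Matrix m m (LaurentSeries E),
    HP (A.O i) (X.p i) (X.hp i).ne_zero (A.phi i) M n G Phi Psi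

end mats

/-- companion matrix -/
def comp {R : Type} [CommRing R] {r : ℕ} (c : Fin r → R) : Matrix (Fin r) (Fin r) R :=
  fun i j => (if (i : ℕ) = j + 1 then 1 else 0) + (if (j : ℕ) + 1 = r then c i else 0)

/-- `H` and `H'` are inverse to each other -/
def Inv2 {R : Type} [CommRing R] {m m' : Type} [Fintype m] [DecidableEq m] [Fintype m']
    [DecidableEq m'] (H : Matrix m m' R) (H' : Matrix m' m R) : Prop := H' * H = 1 ∧ H * H' = 1

/-- gauge transform of a connection matrix by `H` (`H'` is the inverse of `H`) -/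
def gau {F : Type} [Field F] (d : Derivation ℤ F F) {m m' : Type} [Fintype m]
    (H : Matrix m m' F) (H' : Matrix m' m F) (G : Matrix m m F) : Matrix m' m' F :=
  H' * H.map d + H' * G * H

section pkg
variable {X : Idx} {E : Type} [Field E] (A : PF X E) {m : Type} [Fintype m] [DecidableEq m]

/-- `x d/dx` on `E(x)` -/
noncomputable abbrev nabF (E : Type) [Field E] := fd (L := RatFunc E) (nabP E)

/-- the nilpotency property over `F = E(x)`: for every vector `v`, for almost all places,
`((∇ + G) ^ p - (∇ + G)) ^ (n + 1) v` is divisible by `p` -/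
def NilF (G : Matrix m m (RatFunc E)) (n : ℕ) : Prop :=
  ∀ v : m → RatFunc E, X.Ev fun i => ∀ a,
    ex E ((((opF (nabF E) G) ^ (X.p i) - opF (nabF E) G) ^ (n + 1)) v a) ∈ pL (A.O i) (X.p i) 1

/-- `Φ, Φ'` is a pair of Frobenius matrices modulo `p ^ M` of complexity `C` at the place `i` for
the connection `G`, weight `n`, special vector `e` and functional `chi`.  `Φ'` is the
Frobenius matrix of the dual connection; `Ψ = Φ'ᵀ`. -/
structure Frob (G : A.J → Matrix m m E) (chi : m → E) (e : m) (n : ℕ) (i : X.I) (M C : ℕ)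
    (Phi Phi' : Matrix m m E) : Prop where
  t1 : ∀ a b, Phi a b ∈ A.t i (C * X.p i)
  t2 : ∀ a b, Phi' a b ∈ A.t i (C * X.p i)
  m1 : Cong (A.O i) (X.p i) M (Phi'.transpose * Phi) ((X.p i : E) ^ n • 1)
  m2 : Cong (A.O i) (X.p i) M (Phi * Phi'.transpose) ((X.p i : E) ^ n • 1)
  h1 : ∀ a, Cong (A.O i) (X.p i) M (Phi.map (A.D a) + G a * Phi)
    ((X.p i : E) • (Phi * (G a).map (A.phi i)))
  h2 : ∀ a, Cong (A.O i) (X.p i) M (Phi'.map (A.D a) - (G a).transpose * Phi')
    (-((X.p i : E) • (Phi' * ((G a).map (A.phi i)).transpose)))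
  col : ∀ a, Phi a e - (if a = e then 1 else 0) ∈ pI (A.O i) (X.p i) M
  gap : ∀ a b, Phi a b - (if a = e then A.phi i (chi b) else 0) ∈ pI (A.O i) (X.p i) 1

/-- A package of weight `n` over a PF field. -/
structure Pkg (G : A.J → Matrix m m E) (chi : m → E) (e : m) (n : ℕ) : Prop where
  flat : ∀ a b, (G b).map (A.D a) + G a * G b = (G a).map (A.D b) + G b * G a
  Ge : ∀ a x, G a x e = 0
  chie : chi e = 1
  frob : ∀ M, ∃ C, X.Ev fun i => ∃ Phi Phi' : Matrix m m E, Frob A G chi e n i M C Phi Phi'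

end pkg

section ld
variable {E : Type} [Field E]

/-- Limit data of one connection matrix `G` over `F = E(x)`: a basis `Z` of the generalised
horizontal vectors over Laurent series (exponent `0` part), the dual basis `Z'`, residue `N`. -/
structure LD0 {m : Type} [Fintype m] [DecidableEq m] (G : Matrix m m (RatFunc E)) (u : Type)
    [Fintype u] [DecidableEq u] where
  Z : Matrix m u (LaurentSeries E)
  Z' : Matrix m u (LaurentSeries E)
  N : Matrix u u E
  ZZ : Z'.transpose * Z = 1
  nil : IsNilpotent N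
  hZ : Z.map nab + G.map (ex E) * Z = Z * cM N
  hZ' : Z'.map nab - (G.map (ex E)).transpose * Z' = -(Z' * cM N.transpose)
  compl : ∀ (K : Type) [Field K] (κ : E →+* K) (q : ℕ) (v : m → LaurentSeries K),
    ((op (G.map ((cmapR κ).comp (ex E)))) ^ q) v = 0 →
      ∃ x : u → K, ∀ a, v a = ∑ b, cmapR κ (Z a b) * HahnSeries.C (x b)
  compl' : ∀ (K : Type) [Field K] (κ : E →+* K) (q : ℕ) (v : m → LaurentSeries K),
    ((op (-(G.map ((cmapR κ).comp (ex E))).transpose)) ^ q) v = 0 →
      ∃ x : u → K, ∀ a, v a = ∑ b, cmapR κ (Z' a b) * HahnSeries.C (x b)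

/-- Limit data of a connection `G` over `F = E(x)` with special vector `e`. -/
structure LD {X : Idx} (A : PF X E) {m : Type} [Fintype m] [DecidableEq m]
    (G : Option A.J → Matrix m m (RatFunc E)) (e : m) (u : Type) [Fintype u] [DecidableEq u]
    (e' : u) extends LD0 (G none) u where
  G' : A.J → Matrix u u E
  hD : ∀ a, Z.map (cmap (A.D a : E →+ E)) + (G (some a)).map (ex E) * Z = Z * cM (G' a)
  hD' : ∀ a, Z'.map (cmap (A.D a : E →+ E)) - ((G (some a)).map (ex E)).transpose * Z' =
    -(Z' * cM (G' a).transpose)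
  Ze : ∀ x, Z x e' = if x = e then 1 else 0

variable {X : Idx} {A : PF X E} {m : Type} [Fintype m] [DecidableEq m]
  {G : Option A.J → Matrix m m (RatFunc E)} {e : m} {u : Type} [Fintype u] [DecidableEq u]
  {e' : u}

/-- the series `chi Z` -/
noncomputable def LD.cs (d : LD A G e u e') (chi : m → RatFunc E) (b : u) : LaurentSeries E :=
  ∑ a, ex E (chi a) * d.Z a b

/-- the induced functional -/
noncomputable def LD.chi' (d : LD A G e u e') (chi : m → RatFunc E) (b : u) : E :=
  (d.cs chi b).coeff 0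

end ld

/-! ## API: product rules, gauge transforms, duality -/

section api

theorem mapD_mul {R : Type} [CommRing R] (d : Derivation ℤ R R) {m m' m'' : Type} [Fintype m']
    (A : Matrix m m' R) (B : Matrix m' m'' R) :
    (A * B).map d = A.map d * B + A * B.map d := by
  ext a b
  simp only [Matrix.map_apply, Matrix.mul_apply, Matrix.add_apply, map_sum,
    ← Finset.sum_add_distrib, Derivation.leibniz, smul_eq_mul]
  exact Finset.sum_congr rfl fun c _ => by ring

theorem mapNab_mul {E : Type} [Field E] {m m' m'' : Type} [Fintype m']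
    (A : Matrix m m' (LaurentSeries E)) (B : Matrix m' m'' (LaurentSeries E)) :
    (A * B).map nab = A.map nab * B + A * B.map nab := by
  ext1 a b
  simp only [Matrix.map_apply, Matrix.mul_apply, Matrix.add_apply, map_sum,
    ← Finset.sum_add_distrib, nab_mul]

theorem mapCmap_mul {E : Type} [Field E] (δ : Derivation ℤ E E) {m m' m'' : Type} [Fintype m']
    (A : Matrix m m' (LaurentSeries E)) (B : Matrix m' m'' (LaurentSeries E)) :
    (A * B).map (cmap (δ : E →+ E)) =
      A.map (cmap (δ : E →+ E)) * B + A * B.map (cmap (δ : E →+ E)) := by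
  ext1 a b
  simp only [Matrix.map_apply, Matrix.mul_apply, Matrix.add_apply, map_sum,
    ← Finset.sum_add_distrib, cmap_mul]

theorem mapNab_cM {E : Type} [Field E] {m m' : Type} (X : Matrix m m' E) :
    (cM X).map nab = 0 := by
  ext1 a b
  exact nab_C _

theorem cM_mul {E : Type} [Field E] {m m' m'' : Type} [Fintype m'] (A : Matrix m m' E)
    (B : Matrix m' m'' E) : cM (A * B) = cM A * cM B := Matrix.map_mul

theorem cM_one {E : Type} [Field E] {m : Type} [DecidableEq m] : cM (1 : Matrix m m E) = 1 :=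
  Matrix.map_one _ (map_zero _) (map_one _)

variable {m m' m'' : Type} [Fintype m] [DecidableEq m] [Fintype m'] [DecidableEq m']
  [Fintype m''] [DecidableEq m'']

theorem Inv2.mul {R : Type} [CommRing R] {H : Matrix m m' R} {H' : Matrix m' m R}
    {S : Matrix m' m'' R} {S' : Matrix m'' m' R} (h : Inv2 H H') (h' : Inv2 S S') :
    Inv2 (H * S) (S' * H') := by
  refine ⟨?_, ?_⟩
  · rw [Matrix.mul_assoc, ← Matrix.mul_assoc H', h.1, Matrix.one_mul, h'.1]
  · rw [Matrix.mul_assoc, ← Matrix.mul_assoc S, h'.2, Matrix.one_mul, h.2]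

theorem Inv2.map {R S : Type} [CommRing R] [CommRing S] (f : R →+* S) {H : Matrix m m' R}
    {H' : Matrix m' m R} (h : Inv2 H H') : Inv2 (H.map f) (H'.map f) := by
  refine ⟨?_, ?_⟩
  · rw [← Matrix.map_mul, h.1, Matrix.map_one _ (map_zero f) (map_one f)]
  · rw [← Matrix.map_mul, h.2, Matrix.map_one _ (map_zero f) (map_one f)]

theorem Inv2.transpose {R : Type} [CommRing R] {H : Matrix m m' R} {H' : Matrix m' m R}
    (h : Inv2 H H') : Inv2 H'.transpose H.transpose := by
  refine ⟨?_, ?_⟩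
  · rw [← Matrix.transpose_mul, h.1, Matrix.transpose_one]
  · rw [← Matrix.transpose_mul, h.2, Matrix.transpose_one]

omit [Fintype m''] [DecidableEq m''] in
theorem gau_gau {F : Type} [Field F] (d : Derivation ℤ F F) {H : Matrix m m' F}
    {H' : Matrix m' m F} (h : Inv2 H H') (S : Matrix m' m'' F) (S' : Matrix m'' m' F)
    (G : Matrix m m F) :
    gau d S S' (gau d H H' G) = gau d (H * S) (S' * H') G := by
  unfold gau
  rw [mapD_mul]
  have h1 : S' * H' * (H.map d * S + H * S.map d) = S' * (H' * H.map d) * S + S' * S.map d := by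
    rw [Matrix.mul_add]
    congr 1
    · simp only [Matrix.mul_assoc]
    · rw [Matrix.mul_assoc, ← Matrix.mul_assoc H', h.1, Matrix.one_mul]
  rw [h1]
  simp only [Matrix.mul_add, Matrix.add_mul, Matrix.mul_assoc]
  abel

omit [DecidableEq m] in
theorem opF_gau {F : Type} [Field F] (d : Derivation ℤ F F) {H : Matrix m m' F}
    {H' : Matrix m' m F} (h : H' * H = 1) (G : Matrix m m F) (v : m' → F) :
    opF d (gau d H H' G) v = H'.mulVec (opF d G (H.mulVec v)) := by
  have h1 : (fun a => d (H.mulVec v a)) = (H.map d).mulVec v + H.mulVec fun a => d (v a) := by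
    funext a
    simp only [Matrix.mulVec, dotProduct, map_sum, Derivation.leibniz, smul_eq_mul, Pi.add_apply,
      Matrix.map_apply, ← Finset.sum_add_distrib]
    exact Finset.sum_congr rfl fun c _ => by ring
  change (fun a => d (v a)) + (gau d H H' G).mulVec v =
    H'.mulVec ((fun a => d (H.mulVec v a)) + G.mulVec (H.mulVec v))
  rw [h1, gau, Matrix.add_mulVec, Matrix.mulVec_add, Matrix.mulVec_add, Matrix.mulVec_mulVec,
    Matrix.mulVec_mulVec, Matrix.mulVec_mulVec, Matrix.mulVec_mulVec, h, Matrix.one_mulVec,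
    Matrix.mul_assoc]
  abel

omit [DecidableEq m] in
/-- gauge transforms over Laurent series -/
theorem op_gau {E : Type} [Field E] {H : Matrix m m' (LaurentSeries E)}
    {H' : Matrix m' m (LaurentSeries E)} (h : H' * H = 1) (G : Matrix m m (LaurentSeries E))
    (v : m' → LaurentSeries E) :
    op (H' * H.map nab + H' * G * H) v = H'.mulVec (op G (H.mulVec v)) := by
  have h1 : (fun a => nab (H.mulVec v a)) = (H.map nab).mulVec v + H.mulVec fun a => nab (v a) := by
    funext a
    simp only [Matrix.mulVec, dotProduct, map_sum, nab_mul, Pi.add_apply,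
      Matrix.map_apply, ← Finset.sum_add_distrib]
  change (fun a => nab (v a)) + (H' * H.map nab + H' * G * H).mulVec v =
    H'.mulVec ((fun a => nab (H.mulVec v a)) + G.mulVec (H.mulVec v))
  rw [h1, Matrix.add_mulVec, Matrix.mulVec_add, Matrix.mulVec_add, Matrix.mulVec_mulVec,
    Matrix.mulVec_mulVec, Matrix.mulVec_mulVec, Matrix.mulVec_mulVec, h, Matrix.one_mulVec,
    Matrix.mul_assoc]
  abel

/-- the dual of a connection in normal form is in normal form -/
theorem NF.dual {E : Type} [Field E] {u w : Type} [Fintype u] [DecidableEq u] [Fintype w]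
    [DecidableEq w] {G : Matrix (u ⊕ w) (u ⊕ w) (LaurentSeries E)} {Bu : Matrix u u E}
    {Bn : Matrix w w E} (h : NF G Bu Bn) :
    NF (-G.transpose) (-Bu.transpose) (-Bn.transpose) where
  reg a b := (Rg E).neg_mem (h.reg b a)
  c0 := by
    have h0 : cz (-G.transpose) = -(cz G).transpose := by
      ext a b
      simp [cz]
    rw [h0, h.c0, Matrix.fromBlocks_transpose, Matrix.fromBlocks_neg]
    simp
  nil := by
    obtain ⟨k, hk⟩ := h.nil
    refine ⟨k, ?_⟩
    rw [neg_pow, ← Matrix.transpose_pow, hk, Matrix.transpose_zero, mul_zero]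
  inv z := by
    have h1 : (-Bn.transpose + (z : E) • (1 : Matrix w w E)) =
        -((Bn + ((-z : ℤ) : E) • (1 : Matrix w w E)).transpose) := by
      rw [Matrix.transpose_add, Matrix.transpose_smul, Matrix.transpose_one]
      push_cast
      rw [neg_add, neg_smul, neg_neg]
    rw [h1, Matrix.det_neg, Matrix.det_transpose]
    exact mul_ne_zero (pow_ne_zero _ (by norm_num)) (h.inv (-z))

/-- dual limit data -/
noncomputable def LD0.dual {E : Type} [Field E] {G : Matrix m m (RatFunc E)} {u : Type}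
    [Fintype u] [DecidableEq u] (d : LD0 G u) : LD0 (-G.transpose) u where
  Z := d.Z'
  Z' := d.Z
  N := -d.N.transpose
  ZZ := by rw [← Matrix.transpose_transpose d.Z', ← Matrix.transpose_mul, d.ZZ,
    Matrix.transpose_one]
  nil := by
    obtain ⟨k, hk⟩ := d.nil
    refine ⟨k, ?_⟩
    rw [neg_pow, ← Matrix.transpose_pow, hk, Matrix.transpose_zero, mul_zero]
  hZ := by
    have h1 : (-G.transpose).map (ex E) = -(G.map (ex E)).transpose := by
      ext1 a b
      simp
    have h2 : cM (-d.N.transpose) = -cM d.N.transpose := by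
      ext1 a b
      simp [cM]
    rw [h1, h2, Matrix.neg_mul, Matrix.mul_neg, ← d.hZ', sub_eq_add_neg]
  hZ' := by
    have h1 : ((-G.transpose).map (ex E)).transpose = -(G.map (ex E)) := by
      ext1 a b
      simp
    have h2 : cM (-d.N.transpose).transpose = -cM d.N := by
      ext1 a b
      simp [cM]
    rw [h1, h2, Matrix.neg_mul, Matrix.mul_neg, neg_neg, sub_neg_eq_add, d.hZ]
  compl K _ κ q v hv := by
    refine d.compl' K κ q v ?_
    have h1 : -(G.map ((cmapR κ).comp (ex E))).transpose =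
        (-G.transpose).map ((cmapR κ).comp (ex E)) := by
      ext1 a b
      simp
    rw [h1]
    exact hv
  compl' K _ κ q v hv := by
    refine d.compl K κ q v ?_
    have h1 : G.map ((cmapR κ).comp (ex E)) =
        -((-G.transpose).map ((cmapR κ).comp (ex E))).transpose := by
      ext1 a b
      simp
    rw [h1]
    exact hv

/-! ### the valuation rings of a PF field -/

section ax
variable {X : Idx} {E : Type} [Field E] {A : PF X E}

theorem dvr_of_Ax (hA : A.Ax) (i : X.I) : Dvr (A.O i) (X.p i) where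
  prime := X.hp i
  pinv := hA.p_inv i
  fac x hx := by
    obtain ⟨k, hk0, hk1, hk2⟩ := hA.scale i x hx
    refine ⟨-k, _, hk1, hk2, ?_⟩
    have hp : (X.p i : E) ≠ 0 := fun h0 => hA.p_inv i (by
      rw [h0, inv_zero]; exact (A.O i).zero_mem)
    rw [mul_comm x, ← mul_assoc, ← zpow_add₀ hp, neg_add_cancel, zpow_zero, one_mul]

theorem charZero_of_dvr {O : Subring E} {p : ℕ} (h : Dvr O p) : CharZero E := by
  refine charZero_of_inj_zero fun n hn => ?_
  by_contra hne
  obtain ⟨k, r, hr, hk⟩ := Nat.exists_eq_pow_mul_and_not_dvd hne p h.prime.ne_one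
  rw [hk] at hn
  push_cast at hn
  have h1 : (r : E) ≠ 0 := by
    have := (h.int_unit (z := (r : ℤ)) (by exact_mod_cast hr)).2
    exact_mod_cast this
  exact (mul_ne_zero (pow_ne_zero _ h.p_ne) h1) hn

theorem charZero_of_Ax (hA : A.Ax) : CharZero E := by
  obtain ⟨i, _⟩ := X.unb 0
  exact charZero_of_dvr (dvr_of_Ax hA i)

theorem mem_pI_iff_Dv {i : X.I} {M : ℕ} {x : E} : x ∈ pI (A.O i) (X.p i) M ↔ A.Dv i M x :=
  Iff.rfl

end ax

/-- weighted rescaling used for the regularity criterion -/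
noncomputable def wt {E : Type} [Field E] (a b : ℕ) (hb : b ≠ 0) (k i : ℕ)
    (f : LaurentSeries E) : LaurentSeries E :=
  HahnSeries.single ((a : ℤ) * ((k : ℤ) - (i : ℤ))) (1 : E) * spr b hb f

end api

end Pool.H93.Cube
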