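import Pool.Agent.H93.CUBE.LStmts

set_option autoImplicit false

open Polynomial Pool.CM

namespace Pool.H93.Cube

theorem LDB_thm : LDBStmt := by
  intro E _ m _ _ G e he u _ _ d
  classical
  -- the constant vector `e` is horizontal
  have hv : ((op (G.map ((cmapR (RingHom.id E)).comp (ex E)))) ^ 1)
      (Pi.single e (1 : LaurentSeries E)) = 0 := by
    rw [pow_one]
    funext a
    rw [op_apply]
    have h1 : nab ((Pi.single e (1 : LaurentSeries E) : m → LaurentSeries E) a) = 0 := by
      by_cases ha : a = e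
      · subst ha; rw [Pi.single_eq_same, nab_one]
      · rw [Pi.single_eq_of_ne ha, map_zero]
    rw [h1, zero_add]
    refine Finset.sum_eq_zero fun b _ => ?_
    by_cases hb : b = e
    · subst hb
      rw [Matrix.map_apply, he a, map_zero, zero_mul]
    · rw [Pi.single_eq_of_ne hb, mul_zero]
  obtain ⟨x, hx⟩ := d.compl E (RingHom.id E) 1 _ hv
  have hid : ∀ f : LaurentSeries E, cmapR (RingHom.id E) f = f := by
    intro f; ext k; simp
  have hx' : ∀ a, (Pi.single e (1 : LaurentSeries E) : m → LaurentSeries E) a =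
      ∑ b, d.Z a b * HahnSeries.C (x b) := by
    intro a
    rw [hx a]
    exact Finset.sum_congr rfl fun b _ => by rw [hid]
  obtain ⟨e', he'⟩ : ∃ e', x e' ≠ 0 := by
    by_contra hcon
    push Not at hcon
    have := hx' e
    rw [Pi.single_eq_same] at this
    have h0 : ∑ b, d.Z e b * HahnSeries.C (x b) = 0 :=
      Finset.sum_eq_zero fun b _ => by rw [hcon b, map_zero, mul_zero]
    rw [h0] at this
    exact one_ne_zero this
  -- the base change
  let S : Matrix u u E := (1 : Matrix u u E).updateCol e' x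
  have hdet : S.det = x e' := by
    rw [← Matrix.cramer_apply, Matrix.cramer_one]
    rfl
  have hunit : IsUnit S.det := by rw [hdet]; exact isUnit_iff_ne_zero.2 he'
  have hS1 : S * S⁻¹ = 1 := Matrix.mul_nonsing_inv _ hunit
  have hS2 : S⁻¹ * S = 1 := Matrix.nonsing_inv_mul _ hunit
  have c1 : cM S * cM S⁻¹ = (1 : Matrix u u (LaurentSeries E)) := by
    rw [← cM_mul, hS1, cM_one]
  have c2 : cM S⁻¹ * cM S = (1 : Matrix u u (LaurentSeries E)) := by
    rw [← cM_mul, hS2, cM_one]
  refine ⟨e', {
    Z := d.Z * cM S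
    Z' := d.Z' * (cM S⁻¹).transpose
    N := S⁻¹ * d.N * S
    ZZ := ?_
    nil := ?_
    hZ := ?_
    hZ' := ?_
    compl := ?_
    compl' := ?_ }, ?_⟩
  · rw [Matrix.transpose_mul, Matrix.transpose_transpose, Matrix.mul_assoc,
      ← Matrix.mul_assoc d.Z'.transpose, d.ZZ, Matrix.one_mul, c2]
  · obtain ⟨k, hk⟩ := d.nil
    refine ⟨k, ?_⟩
    have : ∀ j : ℕ, (S⁻¹ * d.N * S) ^ j = S⁻¹ * d.N ^ j * S := by
      intro j
      induction j with
      | zero => rw [pow_zero, pow_zero, Matrix.mul_one, hS2]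
      | succ j ih =>
        rw [pow_succ, ih, pow_succ]
        calc S⁻¹ * d.N ^ j * S * (S⁻¹ * d.N * S) = S⁻¹ * d.N ^ j * (S * S⁻¹) * d.N * S := by
              simp only [Matrix.mul_assoc]
          _ = S⁻¹ * (d.N ^ j * d.N) * S := by
              rw [hS1, Matrix.mul_one]; simp only [Matrix.mul_assoc]
    rw [this k, hk, Matrix.mul_zero, Matrix.zero_mul]
  · rw [mapNab_mul, mapNab_cM, Matrix.mul_zero, add_zero, ← Matrix.mul_assoc, ← Matrix.add_mul,
      d.hZ, cM_mul, cM_mul]
    calc d.Z * cM d.N * cM S = d.Z * (1 : Matrix u u (LaurentSeries E)) * cM d.N * cM S := by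
          rw [Matrix.mul_one]
      _ = d.Z * cM S * (cM S⁻¹ * cM d.N * cM S) := by
        rw [← c1]; simp only [Matrix.mul_assoc]
  · have hT : (cM S⁻¹).transpose = cM (S⁻¹).transpose := rfl
    have c3 : cM (S⁻¹).transpose * cM S.transpose = (1 : Matrix u u (LaurentSeries E)) := by
      rw [← cM_mul, ← Matrix.transpose_mul, hS1, Matrix.transpose_one, cM_one]
    rw [hT, mapNab_mul, mapNab_cM, Matrix.mul_zero, add_zero, ← Matrix.mul_assoc,
      ← Matrix.sub_mul, d.hZ', Matrix.transpose_mul, Matrix.transpose_mul, cM_mul, cM_mul,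
      Matrix.neg_mul, neg_inj]
    calc d.Z' * cM d.N.transpose * cM (S⁻¹).transpose
        = d.Z' * (1 : Matrix u u (LaurentSeries E)) * cM d.N.transpose * cM (S⁻¹).transpose := by
          rw [Matrix.mul_one]
      _ = d.Z' * cM (S⁻¹).transpose * (cM S.transpose * (cM d.N.transpose *
          cM (S⁻¹).transpose)) := by
        rw [← c3]; simp only [Matrix.mul_assoc]
  · intro K _ κ q v hv
    obtain ⟨y, hy⟩ := d.compl K κ q v hv
    refine ⟨(S⁻¹.map κ).mulVec y, fun a => ?_⟩
    have hc : ∀ b, (HahnSeries.C (y b) : LaurentSeries K) =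
        ∑ c, cmapR κ (cM S b c) * HahnSeries.C ((S⁻¹.map κ).mulVec y c) := by
      intro b
      have h1 : y = (S.map κ).mulVec ((S⁻¹.map κ).mulVec y) := by
        rw [Matrix.mulVec_mulVec, ← Matrix.map_mul, hS1,
          Matrix.map_one _ (map_zero κ) (map_one κ), Matrix.one_mulVec]
      conv_lhs => rw [h1]
      simp only [Matrix.mulVec, dotProduct, map_sum, map_mul, cM, Matrix.map_apply, cmapR_C]
    rw [hy a]
    simp only [Matrix.mul_apply, map_sum, map_mul, Finset.sum_mul]
    rw [Finset.sum_comm]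
    refine Finset.sum_congr rfl fun b _ => ?_
    rw [hc b, Finset.mul_sum]
    exact Finset.sum_congr rfl fun c _ => by rw [mul_assoc]
  · intro K _ κ q v hv
    obtain ⟨y, hy⟩ := d.compl' K κ q v hv
    refine ⟨(S.transpose.map κ).mulVec y, fun a => ?_⟩
    have hc : ∀ b, (HahnSeries.C (y b) : LaurentSeries K) =
        ∑ c, cmapR κ ((cM S⁻¹).transpose b c) * HahnSeries.C ((S.transpose.map κ).mulVec y c) := by
      intro b
      have h1 : y = ((S⁻¹).transpose.map κ).mulVec ((S.transpose.map κ).mulVec y) := by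
        rw [Matrix.mulVec_mulVec, ← Matrix.map_mul, ← Matrix.transpose_mul, hS1,
          Matrix.transpose_one, Matrix.map_one _ (map_zero κ) (map_one κ), Matrix.one_mulVec]
      conv_lhs => rw [h1]
      simp only [Matrix.mulVec, dotProduct, map_sum, map_mul, cM, Matrix.map_apply, cmapR_C,
        Matrix.transpose_apply]
    rw [hy a]
    simp only [Matrix.mul_apply, map_sum, map_mul, Finset.sum_mul]
    rw [Finset.sum_comm]
    refine Finset.sum_congr rfl fun b _ => ?_
    rw [hc b, Finset.mul_sum]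
    exact Finset.sum_congr rfl fun c _ => by rw [mul_assoc]
  · intro a
    change (d.Z * cM S) a e' = _
    have h1 : (d.Z * cM S) a e' = ∑ b, d.Z a b * HahnSeries.C (x b) := by
      rw [Matrix.mul_apply]
      refine Finset.sum_congr rfl fun b _ => ?_
      have : S b e' = x b := Matrix.updateCol_self
      rw [cM, Matrix.map_apply, this]
    rw [h1, ← hx' a, Pi.single_apply]

end Pool.H93.Cube
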