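import Pool.Agent.H93.CUBE.LStmts

set_option autoImplicit false

open Polynomial Pool.CM

namespace Pool.H93.Cube

theorem LDX_thm (h1 : HPPStmt) (h2 : HNFStmt) (h3 : LD0XStmt) (h4 : LDBStmt) (h5 : LDDStmt) :
    LDXStmt := by
  intro X E _ A hA m _ _ G chi e n hP
  have hn : NilF A (G none) n := h2 X E A hA m (G none) n (h1 X E A hA m G chi e n hP).1
  obtain ⟨u, hu1, hu2, ⟨d0⟩⟩ := h3 X E A hA m (G none) n hn
  obtain ⟨e', d, hd⟩ := h4 E m (G none) e (fun x => hP.Ge none x) u d0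
  obtain ⟨G', hG, hG'⟩ := h5 X E A hA m G (fun a b => hP.flat a b) u d
  exact ⟨u, hu1, hu2, e', ⟨{ d with G' := G', hD := hG, hD' := hG', Ze := hd }⟩⟩

end Pool.H93.Cube
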