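import Pool.Agent.H93.CUBE.LStmts
import Pool.Agent.H10.CM.All

set_option autoImplicit false

open Polynomial Pool.CM

namespace Pool.H93.Cube

namespace LPK

theorem ex_D {X : Idx} {E : Type} [Field E] (A : PF X E) (a : A.J) (x : RatFunc E) :
    ex E (A.ext.D (some a) x) = cmap (A.D a : E →+ E) (ex E x) := by
  ext k
  rw [(Pool.CM.All.xde X E A x k).2 a]
  rfl

theorem cM_injective {E : Type} [Field E] {m m' : Type} {Y Y' : Matrix m m' E}
    (h : cM Y = cM Y') : Y = Y' := by
  ext a b
  have := congrFun (congrFun h a) b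
  exact HahnSeries.C_injective this

theorem cancel {E : Type} [Field E] {m : Type} [Fintype m] [DecidableEq m]
    {G : Matrix m m (RatFunc E)} {u : Type} [Fintype u] [DecidableEq u] (d : LD0 G u)
    {u' : Type} {Y Y' : Matrix u u' E} (h : d.Z * cM Y = d.Z * cM Y') : Y = Y' := by
  have h1 := congrArg (fun W => d.Z'.transpose * W) h
  simp only [← Matrix.mul_assoc, d.ZZ, Matrix.one_mul] at h1
  exact cM_injective h1

theorem cM_add {E : Type} [Field E] {m m' : Type} (Y Y' : Matrix m m' E) :
    cM (Y + Y') = cM Y + cM Y' := by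
  ext1 a b
  simp [cM]

theorem cmap_C {E : Type} [Field E] (δ : Derivation ℤ E E) (x : E) :
    cmap (δ : E →+ E) (HahnSeries.C x) = HahnSeries.C (δ x) := by
  ext k
  rw [cmap_coeff, HahnSeries.C_apply, HahnSeries.C_apply]
  by_cases h : k = 0
  · subst h; simp
  · rw [HahnSeries.coeff_single_of_ne h, HahnSeries.coeff_single_of_ne h, map_zero]

theorem map_cM {E : Type} [Field E] (δ : Derivation ℤ E E) {m m' : Type} (Y : Matrix m m' E) :
    (cM Y).map (cmap (δ : E →+ E)) = cM (Y.map δ) := by
  ext1 a b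
  exact cmap_C δ (Y a b)

variable {X : Idx} {E : Type} [Field E] {A : PF X E}

/-- applying `D_a + G_a` to `(D_b + G_b) Z = Z G'_b` -/
theorem apply_both {m : Type} [Fintype m] [DecidableEq m]
    {G : Option A.J → Matrix m m (RatFunc E)} {e : m} {u : Type} [Fintype u] [DecidableEq u]
    {e' : u} (d : LD A G e u e') (a b : A.J) :
    (d.Z.map (cmap (A.D b : E →+ E))).map (cmap (A.D a : E →+ E)) +
      (G (some b)).map (ex E) * d.Z.map (cmap (A.D a : E →+ E)) +
      (G (some a)).map (ex E) * d.Z.map (cmap (A.D b : E →+ E)) +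
      ((G (some b)).map (A.ext.D (some a)) + G (some a) * G (some b)).map (ex E) * d.Z =
    d.Z * cM (d.G' a * d.G' b + (d.G' b).map (A.D a)) := by
  have h1 := congrArg (fun W : Matrix m u (LaurentSeries E) =>
    W.map (cmap (A.D a : E →+ E)) + (G (some a)).map (ex E) * W) (d.hD b)
  beta_reduce at h1
  have h2 : (d.Z * cM (d.G' b)).map (cmap (A.D a : E →+ E)) +
      (G (some a)).map (ex E) * (d.Z * cM (d.G' b)) =
      d.Z * cM (d.G' a * d.G' b + (d.G' b).map (A.D a)) := by
    rw [mapCmap_mul, map_cM, cM_add, cM_mul, Matrix.mul_add, ← Matrix.mul_assoc d.Z,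
      ← d.hD a, Matrix.add_mul, Matrix.mul_assoc ((G (some a)).map (ex E))]
    abel
  rw [h2] at h1
  rw [← h1]
  have h3 : (d.Z.map (cmap (A.D b : E →+ E)) + (G (some b)).map (ex E) * d.Z).map
      (cmap (A.D a : E →+ E)) = (d.Z.map (cmap (A.D b : E →+ E))).map (cmap (A.D a : E →+ E)) +
      (((G (some b)).map (ex E)).map (cmap (A.D a : E →+ E)) * d.Z +
        (G (some b)).map (ex E) * d.Z.map (cmap (A.D a : E →+ E))) := by
    rw [← mapCmap_mul]
    ext1 x y
    simp only [Matrix.map_apply, Matrix.add_apply, map_add]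
  have h4 : ((G (some b)).map (A.ext.D (some a)) + G (some a) * G (some b)).map (ex E) =
      ((G (some b)).map (ex E)).map (cmap (A.D a : E →+ E)) +
      (G (some a)).map (ex E) * (G (some b)).map (ex E) := by
    rw [← Matrix.map_mul]
    ext1 x y
    simp only [Matrix.map_apply, Matrix.add_apply, map_add]
    rw [ex_D A a]
  rw [h3, h4, Matrix.add_mul, Matrix.mul_add, Matrix.mul_assoc]
  abel

end LPK

open LPK in
theorem LPK_thm (h1 : CHRStmt) (h2 : TRAStmt) : LPKStmt := by
  intro X E _ A hA hJ m _ _ G chi e n hP u _ _ e' d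
  have hchi := h1 X E A hA m G chi e n hP u e' d
  refine ⟨hchi, ?_, ?_, ?_, ?_⟩
  · intro a b
    have e1 := apply_both d a b
    have e2 := apply_both d b a
    have hc : (d.Z.map (cmap (A.D b : E →+ E))).map (cmap (A.D a : E →+ E)) =
        (d.Z.map (cmap (A.D a : E →+ E))).map (cmap (A.D b : E →+ E)) := by
      ext1 x y
      ext k
      exact hA.D_comm a b _
    have hf : (G (some b)).map (A.ext.D (some a)) + G (some a) * G (some b) =
        (G (some a)).map (A.ext.D (some b)) + G (some b) * G (some a) :=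
      hP.flat (some a) (some b)
    rw [hc, hf] at e1
    have e3 : d.Z * cM (d.G' a * d.G' b + (d.G' b).map (A.D a)) =
        d.Z * cM (d.G' b * d.G' a + (d.G' a).map (A.D b)) := by
      rw [← e1, ← e2]
      abel
    have e4 := cancel d.toLD0 e3
    rw [add_comm ((d.G' b).map (A.D a)), add_comm ((d.G' a).map (A.D b))]
    exact e4
  · intro a x
    have h3 : ∀ y, (d.Z * cM (d.G' a)) y e' = 0 := by
      intro y
      rw [← d.hD a, Matrix.add_apply, Matrix.map_apply, d.Ze y, Matrix.mul_apply]
      have h4 : ∀ z, (G (some a)).map (ex E) y z * d.Z z e' = 0 := by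
        intro z
        rw [d.Ze z]
        split_ifs with hz
        · subst hz
          have : G (some a) y z = 0 := hP.Ge (some a) y
          rw [Matrix.map_apply, this, map_zero, zero_mul]
        · rw [mul_zero]
      rw [Finset.sum_eq_zero fun z _ => h4 z, add_zero]
      split_ifs with hy
      · have : (1 : LaurentSeries E) = HahnSeries.C 1 := (map_one _).symm
        rw [this, cmap_C]
        have h1 : (A.D a) 1 = 0 := Derivation.map_one_eq_zero _
        rw [h1, map_zero]
      · rw [map_zero]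
    have h5 : (d.Z'.transpose * (d.Z * cM (d.G' a))) x e' = 0 := by
      rw [Matrix.mul_apply]
      exact Finset.sum_eq_zero fun y _ => by rw [h3 y, mul_zero]
    rw [← Matrix.mul_assoc, d.ZZ, Matrix.one_mul] at h5
    exact HahnSeries.C_injective (h5.trans (map_zero _).symm)
  · change (∑ a, ex E (chi a) * d.Z a e').coeff 0 = 1
    have h3 : ∑ a, ex E (chi a) * d.Z a e' = 1 := by
      rw [Finset.sum_eq_single e]
      · rw [d.Ze e, if_pos rfl, mul_one, hP.chie, map_one]
      · intro b _ hb
        rw [d.Ze b, if_neg hb, mul_zero]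
      · exact fun h => (h (Finset.mem_univ _)).elim
    rw [h3, HahnSeries.coeff_one, if_pos rfl]
  · intro M
    obtain ⟨c, hc⟩ := h2 X E A hA hJ m G chi e n hP u e' d
    obtain ⟨C, hC⟩ := hP.frob (M + c)
    obtain ⟨C2, hC2⟩ := hc M C 0
    refine ⟨C2, (hC.and hC2).mono ?_⟩
    rintro i ⟨⟨Phi, Phi', hF⟩, h⟩
    obtain ⟨PhiH, PhiH', h3, _, _⟩ := h Phi Phi' hF
    exact ⟨PhiH, PhiH', h3⟩

end Pool.H93.Cube
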