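import Pool.Agent.H93.CUBE.LStmts

set_option autoImplicit false

open Polynomial Pool.CM

namespace Pool.H93.Cube

namespace TRA

theorem Cong.mono {E : Type} [Field E] {O : Subring E} {p M N : ℕ} {m m' : Type}
    {X Y : Matrix m m' E} (h : Cong O p M X Y) (hN : N ≤ M) : Cong O p N X Y :=
  fun a b => pI_le hN (h a b)

theorem CongT.mono {E : Type} [Field E] {O : Subring E} {p M N : ℕ} {K L : ℤ} {m m' : Type}
    {X Y : Matrix m m' (LaurentSeries E)} (h : CongT O p M K X Y) (hN : N ≤ M) (hL : L ≤ K) :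
    CongT O p N L X Y :=
  fun a b k hk => pI_le hN (h a b k (lt_of_lt_of_le hk hL))

theorem t_mono {X : Idx} {E : Type} [Field E] {A : PF X E} (hA : A.Ax) {i : X.I} {d e : ℕ}
    (h : d ≤ e) {x : E} (hx : x ∈ A.t i d) : x ∈ A.t i e := by
  obtain ⟨g, hg, k, hk, he⟩ := hx
  exact ⟨g, hA.pol_mono i d e h hg, k, hA.den_mono i d e h hk, he⟩

theorem t_O {X : Idx} {E : Type} [Field E] {A : PF X E} (hA : A.Ax) {i : X.I} {d : ℕ}
    {x : E} (hx : x ∈ A.t i d) : x ∈ A.O i := by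
  obtain ⟨g, hg, k, hk, he⟩ := hx
  obtain ⟨h0, _, h2⟩ := hA.den_un i d k hk
  have : x = g * k⁻¹ := by rw [← he, mul_assoc, mul_inv_cancel₀ h0, mul_one]
  rw [this]
  exact (A.O i).mul_mem (hA.pol_O i d g hg) h2

theorem fin_bound {J : Type} [Finite J] (f : J → ℕ) : ∃ B, ∀ a, f a ≤ B := by
  obtain ⟨B, hB⟩ := Finite.bddAbove_range f
  exact ⟨B, fun a => hB ⟨a, rfl⟩⟩

theorem neg_map {R S : Type} [CommRing R] [CommRing S] (f : R →+* S) {m m' : Type}
    (X : Matrix m m' R) : (-X).map f = -(X.map f) := by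
  ext a b
  simp

end TRA

open TRA in
theorem TRA_thm (h1 : TR2Stmt) (h2 : TRMStmt) (h3 : TRHStmt) (h4 : TRCStmt) (h5 : TRGStmt)
    (h6 : CHRStmt) (h7 : SWStmt) (h8 : HPPStmt) : TRAStmt := by
  intro X E _ A hA hJ m _ _ G chi e n hP u _ _ e' d
  obtain ⟨hp1, hp2⟩ := h8 X E A hA m G chi e n hP
  obtain ⟨c1, H1⟩ := h1 X E A hA m (G none) n hp1 u d.toLD0
  obtain ⟨c2, H2⟩ := h1 X E A hA m (-(G none).transpose) n hp2 u d.toLD0.dual
  obtain ⟨Im, H3⟩ := h2 X E A hA m (G none) u d.toLD0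
  have H4 := fun a : A.J => h3 X E A hA m (G none) (G (some a)) u d.toLD0 a (d.G' a) (d.hD a)
  choose I4 H4 using H4
  have hdD : ∀ a : A.J, d.toLD0.dual.Z.map (cmap (A.D a : E →+ E)) +
      (-(G (some a)).transpose).map (ex E) * d.toLD0.dual.Z =
      d.toLD0.dual.Z * cM (-(d.G' a).transpose) := by
    intro a
    have := d.hD' a
    change d.Z'.map (cmap (A.D a : E →+ E)) + (-(G (some a)).transpose).map (ex E) * d.Z' =
      d.Z' * cM (-(d.G' a).transpose)
    rw [neg_map, cM, neg_map, Matrix.neg_mul, Matrix.mul_neg, ← sub_eq_add_neg]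
    exact this
  have H5 := fun a : A.J => h3 X E A hA m (-(G none).transpose) (-(G (some a)).transpose) u
    d.toLD0.dual a (-(d.G' a).transpose) (hdD a)
  choose I5 H5 using H5
  obtain ⟨B4, hB4⟩ := TRA.fin_bound I4
  obtain ⟨B5, hB5⟩ := TRA.fin_bound I5
  obtain ⟨Ic, H6⟩ := h4 X E A hA m G e u e' d
  have hchi := h6 X E A hA m G chi e n hP u e' d
  obtain ⟨Ig, H7⟩ := h5 X E A hA m G chi e u e' d hchi
  refine ⟨c1 + c2 + n + 1, fun M C1 I => ?_⟩
  obtain ⟨C2a, K1⟩ := H1 (M + n + 1) C1 (I + Im + B4 + B5 + Ic + Ig)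
  obtain ⟨C2b, K2⟩ := H2 (M + n + 1) C1 (I + Im + B4 + B5 + Ic + Ig)
  refine ⟨C2a + C2b, ?_⟩
  have K3 := H3 n (M + n + 1) C1
  have K4 := Idx.Ev.all fun a : A.J => H4 a (M + n + 1) C1
  have K5 := Idx.Ev.all fun a : A.J => H5 a (M + n + 1) C1
  have K6 := H6 (M + n + 1) C1
  have K7 := H7 C1
  refine (K1.and (K2.and (K3.and (K4.and (K5.and (K6.and K7)))))).mono ?_
  rintro i ⟨L1, L2, L3, L4, L5, L6, L7⟩ Phi Phi' hF
  have hcong1 : Cong (A.ext.O i) (X.p i) (M + n + 1 + c1)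
      (Phi.map (nabF E) + G none * Phi)
      ((X.p i : RatFunc E) • (Phi * (G none).map (A.ext.phi i))) :=
    Cong.mono (hF.h1 none) (by omega)
  obtain ⟨PhiH, hT, hI⟩ := L1 Phi hF.t1 hcong1
  have hcong2 : Cong (A.ext.O i) (X.p i) (M + n + 1 + c2)
      (Phi'.map (nabF E) + (-(G none).transpose) * Phi')
      ((X.p i : RatFunc E) • (Phi' * (-(G none).transpose).map (A.ext.phi i))) := by
    have := Cong.mono (hF.h2 none) (N := M + n + 1 + c2) (by omega)
    rw [neg_map, Matrix.neg_mul, Matrix.mul_neg, smul_neg, ← sub_eq_add_neg]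
    exact this
  obtain ⟨PhiH', hT', hI'⟩ := L2 Phi' hF.t2 hcong2
  have hO : ∀ a b, PhiH a b ∈ A.O i := fun a b => t_O hA (hT a b)
  have hO' : ∀ a b, PhiH' a b ∈ A.O i := fun a b => t_O hA (hT' a b)
  have hle : ((Im : ℕ) : ℤ) ≤ ((I + Im + B4 + B5 + Ic + Ig : ℕ) : ℤ) := by
    push_cast; omega
  have hm1 : Cong (A.O i) (X.p i) (M + n + 1) (PhiH'.transpose * PhiH)
      ((X.p i : E) ^ n • 1) :=
    L3 Phi Phi' hF.t1 hF.t2 (Cong.mono hF.m1 (by omega)) PhiH PhiH' hO hO'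
      (CongT.mono hI le_rfl hle) (CongT.mono hI' le_rfl hle)
  have hm2 : Cong (A.O i) (X.p i) (M + n + 1 - n) (PhiH * PhiH'.transpose)
      ((X.p i : E) ^ n • 1) :=
    h7 E (A.O i) (X.p i) (dvr_of_Ax hA i) u n (M + n + 1) PhiH'.transpose PhiH
      (fun a b => hO' b a) hO (by omega) hm1
  refine ⟨PhiH, PhiH', ⟨?_, ?_, ?_, ?_, ?_, ?_, ?_, ?_⟩, ?_, ?_⟩
  · exact fun a b => t_mono hA (Nat.mul_le_mul_right _ (Nat.le_add_right _ _)) (hT a b)
  · exact fun a b => t_mono hA (Nat.mul_le_mul_right _ (Nat.le_add_left _ _)) (hT' a b)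
  · exact Cong.mono hm1 (by omega)
  · exact Cong.mono hm2 (by omega)
  · intro a
    refine Cong.mono (L4 a Phi hF.t1 (Cong.mono (hF.h1 (some a)) (by omega)) PhiH hO
      (CongT.mono hI le_rfl ?_)) (by omega)
    have := hB4 a
    push_cast; omega
  · intro a
    have hc : Cong (A.ext.O i) (X.p i) (M + n + 1)
        (Phi'.map (A.ext.D (some a)) + (-(G (some a)).transpose) * Phi')
        ((X.p i : RatFunc E) • (Phi' * (-(G (some a)).transpose).map (A.ext.phi i))) := by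
      have := Cong.mono (hF.h2 (some a)) (N := M + n + 1) (by omega)
      rw [neg_map, Matrix.neg_mul, Matrix.mul_neg, smul_neg, ← sub_eq_add_neg]
      exact this
    have := L5 a Phi' hF.t2 hc PhiH' hO' (CongT.mono hI' le_rfl (by
      have := hB5 a
      push_cast; omega))
    rw [neg_map, Matrix.neg_mul, Matrix.mul_neg, smul_neg, ← sub_eq_add_neg] at this
    exact Cong.mono this (by omega)
  · intro a
    refine pI_le (by omega) (L6 Phi hF.t1 (fun a => pI_le (by omega) (hF.col a)) PhiH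
      (CongT.mono hI le_rfl (by push_cast; omega)) a)
  · intro a b
    exact L7 Phi hF.t1 hF.gap PhiH (CongT.mono hI (by omega) (by push_cast; omega)) a b
  · exact CongT.mono hI (by omega) (by push_cast; omega)
  · exact CongT.mono hI' (by omega) (by push_cast; omega)

end Pool.H93.Cube
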