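import Pool.Agent.H80.CUBE.Lim2
import Pool.Agent.H80.CUBE.L_TRN
import Pool.Agent.H93.CUBE.L_LPK

set_option autoImplicit false

open Polynomial Pool.CM

namespace Pool.H93.Cube

theorem TRH_thm (h1 : CANStmt) (h3 : EXFStmt) (h4 : EXIStmt) : TRHStmt := by
  intro X E _ A hA m _ _ G Ga u _ _ d a Ga' hd
  have hAx : A.ext.Ax := All.ext X E A hA
  obtain ⟨I0, hI0⟩ := h1 X E A hA m G u d
  obtain ⟨g0, hg0, hgl⟩ := exists_bound_fin (fun x : m × m => ex E (Ga x.1 x.2))
  obtain ⟨z0, hz0, hzl⟩ := exists_bound_fin (fun x : m × u => d.Z x.1 x.2)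
  obtain ⟨dG, hdG⟩ := TRN.fixM hAx Ga
  refine ⟨I0 + g0.natAbs, fun M C1 => ?_⟩
  -- total degree of the error
  set I : ℕ := I0 + g0.natAbs with hI
  set Ct : ℕ := 2 * C1 + Fintype.card m * (dG + C1) + Fintype.card m * (C1 + dG) with hCt
  have hGi : X.Ev fun i => ∀ b c, ex E (Ga b c) ∈ IL (A.O i) :=
    Idx.Ev.all fun b => Idx.Ev.all fun c => h4 X E A hA (Ga b c)
  have hGa' : X.Ev fun i => ∀ b c, Ga' b c ∈ A.O i := by
    refine Idx.Ev.all fun b => Idx.Ev.all fun c => ?_
    by_cases h0 : Ga' b c = 0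
    · exact Idx.Ev.of_forall fun i => by rw [h0]; exact (A.O i).zero_mem
    · exact (hA.pf2 _ h0).mono fun i hi => hi.2.1
  have hZi : X.Ev fun i => ∀ b c, ∀ k : Fin (z0.natAbs + I + Ct + 1),
      (d.Z b c).coeff (z0 + ((k : ℕ) : ℤ)) ∈ A.O i := by
    refine Idx.Ev.all fun b => Idx.Ev.all fun c => Idx.Ev.all fun k => ?_
    by_cases h0 : (d.Z b c).coeff (z0 + ((k : ℕ) : ℤ)) = 0
    · exact Idx.Ev.of_forall fun i => by rw [h0]; exact (A.O i).zero_mem
    · exact (hA.pf2 _ h0).mono fun i hi => hi.2.1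
  refine (((hI0.and hGi).and (hGa'.and hZi)).and (hdG.and (Idx.Ev.large 1))).mono ?_
  rintro i ⟨⟨⟨hI0, hGi⟩, ⟨hGa', hZi⟩⟩, ⟨hdG, hlarge⟩⟩ Phi hPhi hcong PhiH hPO hT
  have hp := (X.hp i).ne_zero
  obtain ⟨hT1, hT2, hT3, hT4, hT5, hT6, hT7, hT8⟩ := All.tcl X (RatFunc E) A.ext hAx i
  have hphiO : ∀ x ∈ A.O i, A.phi i x ∈ A.O i := fun x hx => hA.phi_O i x hx
  -- the error matrix
  set R : Matrix m m (LaurentSeries E) :=
    (Phi.map (ex E)).map (cmap (A.D a : E →+ E)) + Ga.map (ex E) * Phi.map (ex E) -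
      (HahnSeries.C (X.p i : E) : LaurentSeries E) •
        (Phi.map (ex E) * (Ga.map (ex E)).map (phiL (A.phi i) (X.p i) hp)) with hR
  have hRerr : ∀ b c, R b c ∈ pL (A.O i) (X.p i) M ∧
      ∀ k < -((Ct * X.p i : ℕ) : ℤ), (R b c).coeff k = 0 := by
    intro b c
    set x : RatFunc E := (Phi.map (A.ext.D (some a)) + Ga * Phi) b c -
      ((X.p i : RatFunc E) • (Phi * Ga.map (A.ext.phi i))) b c with hx
    have hpt : (X.p i : RatFunc E) ∈ A.ext.t i 0 := by
      refine hT8 0 _ ?_
      rw [← nsmul_one]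
      exact (A.ext.pol i 0).nsmul_mem (hAx.pol_one i) _
    have hxt : x ∈ A.ext.t i (Ct * X.p i) := by
      have q1 : A.ext.D (some a) (Phi b c) ∈ A.ext.t i (C1 * X.p i + C1 * X.p i) :=
        hT7 _ (some a) _ (hPhi b c)
      have q2 : (Ga * Phi) b c ∈ A.ext.t i ((Finset.univ : Finset m).card *
          (dG + C1 * X.p i)) := by
        rw [Matrix.mul_apply]
        exact TRN.t_sum hAx i Finset.univ (fun c' => Ga b c' * Phi c' c) _
          fun c' _ => hT4 _ _ _ _ (hdG b c') (hPhi c' c)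
      have q3 : (Phi * Ga.map (A.ext.phi i)) b c ∈
          A.ext.t i ((Finset.univ : Finset m).card * (C1 * X.p i + X.p i * dG)) := by
        rw [Matrix.mul_apply]
        exact TRN.t_sum hAx i Finset.univ (fun c' => Phi b c' * (Ga.map (A.ext.phi i)) c' c) _
          fun c' _ => hT4 _ _ _ _ (hPhi b c') (hT6 _ _ (hdG c' c))
      have q4 := hT4 _ _ _ _ hpt q3
      have q5 := hT3 _ _ _ _ (hT3 _ _ _ _ q1 q2) (hT5 _ _ q4)
      have hle : C1 * X.p i + C1 * X.p i + (Finset.univ : Finset m).card * (dG + C1 * X.p i) +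
          (0 + (Finset.univ : Finset m).card * (C1 * X.p i + X.p i * dG)) ≤ Ct * X.p i := by
        rw [hCt, Finset.card_univ]
        have h5 : dG ≤ dG * X.p i := Nat.le_mul_of_pos_right _ (X.hp i).pos
        have h6 : Fintype.card m * (dG + C1 * X.p i) ≤
            Fintype.card m * (dG * X.p i + C1 * X.p i) := Nat.mul_le_mul_left _ (by omega)
        nlinarith [h6]
      refine hT2 _ _ hle ?_
      rw [hx, sub_eq_add_neg]
      exact q5
    have h6 := (All.xcg X E A hA i _ x M hxt).1 (hcong b c)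
    have h8 := (All.xt X E A hA i _ x hxt).2
    have h7 : ex E x = R b c := by
      rw [hx, hR]
      simp only [map_sub, map_add, Matrix.add_apply, Matrix.sub_apply, Matrix.map_apply,
        Matrix.mul_apply, Matrix.smul_apply, smul_eq_mul, map_mul, map_sum, h3 X E A i,
        map_natCast]
      have := LPK.ex_D A a (Phi b c)
      rw [this]
    rw [← h7]
    exact ⟨fun k => h6 k, h8⟩
  -- the difference
  set D : Matrix m u (LaurentSeries E) :=
    Phi.map (ex E) * d.Z.map (phiL (A.phi i) (X.p i) hp) - d.Z * cM PhiH with hD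
  have hDm : ∀ b c, ∀ k < ((I : ℕ) : ℤ), (D b c).coeff k ∈ pI (A.O i) (X.p i) M := by
    intro b c k hk
    rw [hD, Matrix.sub_apply, HahnSeries.coeff_sub]
    exact hT b c k hk
  have key := Pool.H80.Cube.hor_mul_d (A.D a) (A.phi i) (X.p i) hp
    (fun x => hA.D_phi i a x) (Ga.map (ex E)) (Phi.map (ex E)) d.Z Ga'
  have hzero : d.Z.map (cmap (A.D a : E →+ E)) + Ga.map (ex E) * d.Z - d.Z * cM Ga' = 0 := by
    rw [hd, sub_self]
  have hz2 : (0 : Matrix m u (LaurentSeries E)).map (phiL (A.phi i) (X.p i) hp) = 0 := by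
    ext1 b c
    simp
  rw [hzero, hz2, Matrix.mul_zero, smul_zero, add_zero, ← hR] at key
  have hW : d.Z * cM (PhiH.map (A.D a) + Ga' * PhiH - (X.p i : E) • (PhiH * Ga'.map (A.phi i))) =
      R * d.Z.map (phiL (A.phi i) (X.p i) hp) -
        (D.map (cmap (A.D a : E →+ E)) + Ga.map (ex E) * D) +
        D * cM ((X.p i : E) • Ga'.map (A.phi i)) := by
    have e0 : Phi.map (ex E) * d.Z.map (phiL (A.phi i) (X.p i) hp) = D + d.Z * cM PhiH := by
      rw [hD, sub_add_cancel]
    rw [e0] at key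
    rw [← key]
    have e1 : (D + d.Z * cM PhiH).map (cmap (A.D a : E →+ E)) =
        D.map (cmap (A.D a : E →+ E)) + (d.Z * cM PhiH).map (cmap (A.D a : E →+ E)) := by
      ext1 b c
      simp only [Matrix.map_apply, Matrix.add_apply, map_add]
    have e2 : cM (PhiH.map (A.D a) + Ga' * PhiH - (X.p i : E) • (PhiH * Ga'.map (A.phi i))) =
        cM (PhiH.map (A.D a)) + cM Ga' * cM PhiH -
          cM PhiH * cM ((X.p i : E) • Ga'.map (A.phi i)) := by
      ext1 b c
      simp only [Matrix.map_apply, Matrix.sub_apply, Matrix.add_apply, Matrix.mul_apply,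
        Matrix.smul_apply, smul_eq_mul, map_sub, map_add, map_sum, map_mul, Finset.mul_sum]
      congr 1
      exact Finset.sum_congr rfl fun c' _ => by ring
    rw [e1, mapCmap_mul, e2, LPK.map_cM, Matrix.mul_sub, Matrix.mul_add, ← Matrix.mul_assoc d.Z,
      ← hd]
    simp only [Matrix.add_mul, Matrix.mul_add, Matrix.mul_assoc]
    abel
  intro b c
  rw [← Matrix.sub_apply]
  refine hI0 M u _ (fun b c k hk => ?_) b c
  rw [hW, Matrix.add_apply, Matrix.sub_apply, Matrix.add_apply, HahnSeries.coeff_add,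
    HahnSeries.coeff_sub, HahnSeries.coeff_add]
  have hkI : k < ((I : ℕ) : ℤ) := by rw [hI]; omega
  refine add_mem (sub_mem ?_ (add_mem ?_ ?_)) ?_
  · -- the error term
    rw [Matrix.mul_apply, HahnSeries.coeff_sum]
    refine sum_mem fun c' _ => ?_
    have hf : ∀ k < -((Ct * X.p i : ℕ) : ℤ), (R b c').coeff k = 0 := (hRerr b c').2
    have hg : ∀ k < (X.p i : ℤ) * z0, ((d.Z.map (phiL (A.phi i) (X.p i) hp)) c' c).coeff k = 0 := by
      intro k hk
      rw [Matrix.map_apply, phiL_coeff]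
      split_ifs with hdv
      · obtain ⟨l, rfl⟩ := hdv
        have hp0 : (0 : ℤ) < X.p i := by exact_mod_cast (X.hp i).pos
        have hl : l < z0 := lt_of_mul_lt_mul_left hk hp0.le
        rw [Int.mul_ediv_cancel_left _ hp0.ne', hzl (c', c) l hl, map_zero]
      · rfl
    rw [coeff_mul_Icc hf hg]
    refine sum_mem fun j hj => ?_
    rw [Finset.mem_Icc] at hj
    refine pI_mul_right ((hRerr b c').1 j) ?_
    rw [Matrix.map_apply, phiL_coeff]
    split_ifs with hdv
    · obtain ⟨l, hl⟩ := hdv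
      have hp0 : (0 : ℤ) < X.p i := by exact_mod_cast (X.hp i).pos
      rw [hl, Int.mul_ediv_cancel_left _ hp0.ne']
      refine hphiO _ ?_
      by_cases hlz : l < z0
      · rw [hzl (c', c) l hlz]; exact (A.O i).zero_mem
      · have hlu : l < z0 + ((z0.natAbs + I + Ct + 1 : ℕ) : ℤ) := by
          -- p l = k - j ≤ I + Ct p
          by_contra hcon
          push Not at hcon
          have h9 : (X.p i : ℤ) * l ≤ I + Ct * X.p i := by
            rw [← hl]
            have := hj.1
            push_cast at this ⊢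
            omega
          have h10 : (X.p i : ℤ) * (I + Ct + 1) ≤ (X.p i : ℤ) * l := by
            refine mul_le_mul_of_nonneg_left ?_ hp0.le
            have hz : (0 : ℤ) ≤ z0 + (z0.natAbs : ℤ) := by omega
            have hcast : ((z0.natAbs + I + Ct + 1 : ℕ) : ℤ) = (z0.natAbs : ℤ) + I + Ct + 1 := by
              simp only [Nat.cast_add, Nat.cast_one]
            rw [hcast] at hcon
            linarith
          have h11 : (1 : ℤ) ≤ X.p i := hp0
          have h12 : (I : ℤ) ≤ X.p i * I := by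
            have : (0 : ℤ) ≤ I := Int.natCast_nonneg I
            nlinarith
          nlinarith
        have := hZi c' c ⟨(l - z0).toNat, by omega⟩
        simp only at this
        rw [Int.toNat_of_nonneg (by omega)] at this
        have e : z0 + (l - z0) = l := by ring
        rw [e] at this
        exact this
    · exact (A.O i).zero_mem
  · -- derivative of the difference
    rw [Matrix.map_apply, cmap_coeff]
    obtain ⟨y, hy, e⟩ := hDm b c k hkI
    refine ⟨A.D a y, hA.D_O i a y hy, ?_⟩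
    change A.D a ((D b c).coeff k) = _
    rw [e, (A.D a).leibniz]
    have : A.D a ((X.p i : E) ^ M) = 0 := by
      rw [← Nat.cast_pow]
      exact (A.D a).map_natCast _
    rw [this]
    simp
  · rw [Matrix.mul_apply, HahnSeries.coeff_sum]
    refine sum_mem fun c' _ => ?_
    refine Pool.H80.Cube.mul_low_pole (A := g0) (K := ((I : ℕ) : ℤ)) (fun k hk => ?_) ?_
      (hDm c' c) k ?_
    · exact hgl (b, c') k hk
    · exact hGi b c'
    · rw [hI]; omega
  · rw [Pool.H80.Cube.coeff_mul_cM']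
    refine sum_mem fun c' _ => ?_
    refine pI_mul_right (hDm b c' k hkI) ?_
    rw [Matrix.smul_apply, Matrix.map_apply, smul_eq_mul]
    exact (A.O i).mul_mem (natCast_mem _ _) (hphiO _ (hGa' _ _))

end Pool.H93.Cube
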