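import Pool.Agent.H33.CUBE.L_EXO
import Pool.Agent.H53.CUBE.L_EXG
import Pool.Agent.H34.CUBE.L_EXF
import Pool.Agent.H53.CUBE.L_EXI
import Pool.Agent.H33.CUBE.L_GHP
import Pool.Agent.H70.CUBE.L_HNF
import Pool.Agent.H20.CUBE.L_REG
import Pool.Agent.H1.CUBE.L_FL
import Pool.Agent.H20.CUBE.L_NFX
import Pool.Agent.H1.CUBE.L_LD0X
import Pool.Agent.H53.CUBE.L_LDD
import Pool.Agent.H93.CUBE.L_LDB
import Pool.Agent.H70.CUBE.L_RGL
import Pool.Agent.H80.CUBE.L_SW
import Pool.Agent.H80.CUBE.L_TR1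
import Pool.Agent.H80.CUBE.L_TRN
import Pool.Agent.H95.CUBE.L_TR2
import Pool.Agent.H34.CUBE.L_CAN
import Pool.Agent.H95.CUBE.L_TRM
import Pool.Agent.H7.CUBE.L_TRC
import Pool.Agent.H70.CUBE.L_HPP
import Pool.Agent.H43.CUBE.L_CHR
import Pool.Agent.H43.CUBE.BCH
import Pool.Agent.H95.CUBE.L_FN1
import Pool.Agent.H93.CUBE.L_LDX
import Pool.Agent.H93.CUBE.L_TRA
import Pool.Agent.H93.CUBE.L_LPK
import Pool.Agent.H93.CUBE.L_TRH

set_option autoImplicit false

/-! Block LIMIT without hypotheses. -/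

namespace Pool.H93.Cube.LimAll

theorem exo : EXOStmt := EXO_thm
theorem exg : EXGStmt := EXG_thm
theorem exf : EXFStmt := EXF_thm
theorem exi : EXIStmt := EXI_thm
theorem ghp : GHPStmt := GHP_thm exg exf exi
theorem hnf : HNFStmt := HNF_thm exo
theorem reg : REGStmt := REG_thm exo exi
theorem nfx : NFXStmt := NFX_thm reg SHE_thm exg
theorem ld0x : LD0XStmt := LD0X_thm nfx FLA_thm FLB_thm FLC_thm exg
theorem nfl : NFLStmt := NFL_thm nfx FLA_thm FLB_thm exg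
theorem trn : TRNStmt := TRN_thm TR1_thm RGL_thm exf exi
theorem tr2 : TR2Stmt := TR2_thm trn nfl ghp hnf
theorem trm : TRMStmt := TRM_thm exf
theorem trc : TRCStmt := TRC_thm CAN_thm exf
theorem hpp : HPPStmt := HPP_thm70
theorem chr : CHRStmt := CHR_thm tr2 hpp exf
theorem trg : TRGStmt := TRG_thm CAN_thm exf
theorem ldx : LDXStmt := LDX_thm hpp hnf ld0x LDB_thm LDD_thm
theorem trh : TRHStmt := TRH_thm CAN_thm exf exi
theorem tra : TRAStmt := TRA_thm tr2 trm trh trc trg chr SW_thm hpp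
theorem lpk : LPKStmt := LPK_thm chr tra
theorem fn1 : FN1Stmt := FN1_thm
theorem bch : BCHStmt := Pool.H93.Cube.bch

end Pool.H93.Cube.LimAll
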